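import Mathlib

/-!
Distances in trees: closer neighbours, branches.
-/

namespace X107.JT

open SimpleGraph

variable {V : Type*} {T : SimpleGraph V}

/-- The branch at `y` seen from its neighbour `x`. -/
def Br (T : SimpleGraph V) (x y : V) : Set V := {w | T.dist w y < T.dist w x}

theorem dist_eq_or (hT : T.IsTree) (z : V) {v w : V} (h : T.Adj v w) :
    T.dist z v = T.dist z w + 1 ∨ T.dist z w = T.dist z v + 1 :=
  hT.dist_eq_dist_add_one_of_adj z h

/-- Existence of a closer neighbour. -/
theorem exists_closer (hT : T.IsTree) (z : V) {v : V} (hv : v ≠ z) :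
    ∃ p, T.Adj v p ∧ T.dist z v = T.dist z p + 1 := by
  obtain ⟨w, hw⟩ := hT.1.exists_walk_length_eq_dist v z
  cases w with
  | nil => exact absurd rfl hv
  | @cons _ p _ h q =>
    refine ⟨p, h, ?_⟩
    rcases dist_eq_or hT z h with h1 | h1
    · exact h1
    · exfalso
      have h2 := T.dist_le q
      rw [Walk.length_cons] at hw
      rw [T.dist_comm] at hw
      rw [T.dist_comm] at h2
      omega

/-- Uniqueness of the closer neighbour. -/
theorem closer_unique (hT : T.IsTree) (z : V) {v p q : V} (hp : T.Adj v p) (hq : T.Adj v q)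
    (h1 : T.dist z p < T.dist z v) (h2 : T.dist z q < T.dist z v) : p = q := by
  obtain ⟨wp, hwp⟩ := hT.1.exists_walk_length_eq_dist p z
  obtain ⟨wq, hwq⟩ := hT.1.exists_walk_length_eq_dist q z
  have e1 : T.dist z v = T.dist z p + 1 := by
    rcases dist_eq_or hT z hp with h | h
    · exact h
    · omega
  have e2 : T.dist z v = T.dist z q + 1 := by
    rcases dist_eq_or hT z hq with h | h
    · exact h
    · omega
  have Pp : (Walk.cons hp wp).IsPath := by
    apply Walk.isPath_of_length_eq_dist
    rw [Walk.length_cons, hwp, T.dist_comm (u := v), T.dist_comm (u := p)]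
    exact e1.symm
  have Pq : (Walk.cons hq wq).IsPath := by
    apply Walk.isPath_of_length_eq_dist
    rw [Walk.length_cons, hwq, T.dist_comm (u := v), T.dist_comm (u := q)]
    exact e2.symm
  have := hT.2.path_unique ⟨_, Pp⟩ ⟨_, Pq⟩
  have h3 : Walk.cons hp wp = Walk.cons hq wq := by
    simpa using this
  injection h3

theorem mem_Br {x y w : V} : w ∈ Br T x y ↔ T.dist w y < T.dist w x := Iff.rfl

theorem self_mem_Br (hT : T.IsTree) {x y : V} (h : T.Adj x y) : y ∈ Br T x y := by
  rw [mem_Br, T.dist_self]
  exact hT.1.pos_dist_of_ne h.ne'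

theorem left_not_mem_Br {x y : V} : x ∉ Br T x y := by
  rw [mem_Br, T.dist_self]; omega

theorem Br_sub (hT : T.IsTree) {x y w : V} (hxy : T.Adj x y) (hyw : T.Adj y w) (hwx : w ≠ x) :
    Br T y w ⊆ Br T x y := by
  intro z hz
  rw [mem_Br] at hz ⊢
  by_contra hcon
  have h1 : T.dist z x < T.dist z y := by
    rcases dist_eq_or hT z hxy with h | h <;> omega
  exact hwx (closer_unique hT z hyw hxy.symm hz h1)

theorem Br_disj (hT : T.IsTree) {y w w' : V} (hw : T.Adj y w) (hw' : T.Adj y w') (hne : w ≠ w') :
    Disjoint (Br T y w) (Br T y w') := by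
  rw [Set.disjoint_left]
  intro z h1 h2
  exact hne (closer_unique hT z hw hw' h1 h2)

/-- The only edge leaving a branch. -/
theorem leave_Br (hT : T.IsTree) {x y v w : V} (hxy : T.Adj x y) (hvw : T.Adj v w)
    (hv : v ∈ Br T x y) (hw : w ∉ Br T x y) : v = y ∧ w = x := by
  rw [mem_Br] at hv hw
  have a1 := dist_eq_or hT v hxy
  have a2 := dist_eq_or hT w hxy
  have a3 := dist_eq_or hT x hvw
  have a4 := dist_eq_or hT y hvw
  rw [T.dist_comm (u := v) (v := x), T.dist_comm (u := v) (v := y)] at a1 hv
  rw [T.dist_comm (u := w) (v := x), T.dist_comm (u := w) (v := y)] at a2 hw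
  have hi : T.dist y v = T.dist x w := by omega
  have hxv : T.dist x v = T.dist x w + 1 := by omega
  have hyw : T.dist y w = T.dist x w + 1 := by omega
  have hvy : v = y := by
    by_contra hne
    obtain ⟨p, hp, hdp⟩ := exists_closer hT y hne
    have b1 := dist_eq_or hT p hxy
    rw [T.dist_comm (u := p) (v := x), T.dist_comm (u := p) (v := y)] at b1
    have : p = w := by
      apply closer_unique hT x hp hvw
      · omega
      · omega
    subst this
    omega
  refine ⟨hvy, ?_⟩
  subst hvy
  rw [T.dist_self] at hi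
  exact ((hT.1.dist_eq_zero_iff).1 hi.symm).symm

end X107.JT
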