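import Pool.Agent.X107.JT.JT9

/-!
Existence of eigenvectors on `K_{r,g}`.
-/

namespace X107.JT

open SimpleGraph Filter Topology

variable {V : Type*} {T : SimpleGraph V} {r g : ℕ} {Ξ : V → Fin r ⊕ Fin g}

theorem loc_all (hc : IsUnivCover T (completeBipartiteGraph (Fin r) (Fin g)) Ξ)
    {A : Fin r → Fin g → ℝ} {X : Finset (Fin r)} (hA : ∀ i j, 0 < A i j) (hX2 : 2 ≤ X.card)
    (n : ℕ) : ∀ y i j, Ξ y = Sum.inl i → i ∈ X →
      ∃ w, Loc T Ξ A X n (Finset.univ.erase j) y (sN A X n i j) w := by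
  classical
  induction n with
  | zero =>
    intro y i j hy hi
    have e : ∀ x, (if x = y then (1 : ℝ) else 0) ^ 2 = if x = y then (1 : ℝ) else 0 := by
      intro x; split_ifs <;> norm_num
    refine ⟨fun x => if x = y then 1 else 0, ?_, ?_, ?_, ?_, ?_, ?_⟩
    · simp
    · intro x hx
      left
      by_contra h
      simp [h] at hx
    · intro x hx
      refine ⟨i, hi, ?_⟩
      have : x = y := by
        by_contra h
        simp [h] at hx
      rw [this, hy]
    · simp only [e]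
      apply summable_of_ne_finset_zero (s := {y})
      intro x hx
      rw [Finset.mem_singleton] at hx
      rw [if_neg hx]
    · simp only [e]
      rw [tsum_ite_eq]
      exact le_rfl
    · intro j' _ v _ j'' _ h
      omega
  | succ n ih =>
    intro y i j hy hi
    rw [sN_succ]
    exact glue hc hA hX2 ih _ hy hi

theorem loc_root (hc : IsUnivCover T (completeBipartiteGraph (Fin r) (Fin g)) Ξ)
    {A : Fin r → Fin g → ℝ} {X : Finset (Fin r)} (hA : ∀ i j, 0 < A i j) (hX2 : 2 ≤ X.card)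
    {y : V} {i : Fin r} (hy : Ξ y = Sum.inl i) (hi : i ∈ X) (n : ℕ) :
    ∃ w, Loc T Ξ A X (n + 1) Finset.univ y (1 + ∑ j, tN A X n i j) w :=
  glue hc hA hX2 (loc_all hc hA hX2 n) _ hy hi

/-- The limit of local solutions of bounded energy. -/
theorem exists_global (hc : IsUnivCover T (completeBipartiteGraph (Fin r) (Fin g)) Ξ)
    {A : Fin r → Fin g → ℝ} {X : Finset (Fin r)} {y : V} {i : Fin r} (hy : Ξ y = Sum.inl i)
    {K : ℝ} (h : ∀ n : ℕ, ∃ w, Loc T Ξ A X (n + 1) Finset.univ y K w) :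
    ∃ u : V → ℝ, u y = 1 ∧ (∀ x, u x ≠ 0 → ∃ i ∈ X, Ξ x = Sum.inl i) ∧
      (Summable fun x => u x ^ 2) ∧
      ∀ v j, Ξ v = Sum.inr j → ∑ i ∈ X, A i j * u (nb T Ξ v (Sum.inl i)) = 0 := by
  classical
  choose w hw using h
  have hfin : ∀ n (F : Finset V), ∑ x ∈ F, w n x ^ 2 ≤ K := fun n F =>
    ((hw n).sum.sum_le_tsum F (fun x _ => sq_nonneg _)).trans (hw n).en
  have hK1 : 1 ≤ K := by
    have := hfin 0 {y}
    rw [Finset.sum_singleton, (hw 0).one] at this
    linarith
  have hbox : ∀ n x, w n x ∈ Set.Icc (-K) K := by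
    intro n x
    have h1 := hfin n {x}
    rw [Finset.sum_singleton] at h1
    have h2 : |w n x| ≤ K := by
      apply abs_le_of_sq_le_sq _ (by linarith)
      nlinarith
    exact abs_le.1 h2
  have hcomp : IsCompact (Set.pi Set.univ (fun _ : V => Set.Icc (-K) K)) :=
    isCompact_univ_pi fun _ => isCompact_Icc
  set U : Ultrafilter ℕ := hyperfilter ℕ with hU
  have hle : ((U.map w : Ultrafilter (V → ℝ)) : Filter (V → ℝ)) ≤
      𝓟 (Set.pi Set.univ (fun _ : V => Set.Icc (-K) K)) := by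
    rw [le_principal_iff]
    show _ ∈ Filter.map w U
    rw [mem_map]
    refine Filter.univ_mem' fun n => ?_
    intro x _
    exact hbox n x
  obtain ⟨u, _, hu⟩ := hcomp.ultrafilter_le_nhds _ hle
  have hlim : Tendsto w (U : Filter ℕ) (𝓝 u) := hu
  have hptw : ∀ x, Tendsto (fun n => w n x) (U : Filter ℕ) (𝓝 (u x)) :=
    fun x => (tendsto_pi_nhds.1 hlim) x
  have hU' : (U : Filter ℕ) ≤ atTop := by
    rw [hU]
    exact Nat.hyperfilter_le_atTop
  refine ⟨u, ?_, ?_, ?_, ?_⟩
  · refine tendsto_nhds_unique (hptw y) ?_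
    simp only [(hw _).one]
    exact tendsto_const_nhds
  · intro x hx
    by_contra hcon
    apply hx
    refine tendsto_nhds_unique (hptw x) ?_
    have : ∀ n, w n x = 0 := by
      intro n
      by_contra hne
      exact hcon ((hw n).types x hne)
    simp only [this]
    exact tendsto_const_nhds
  · refine summable_of_sum_le (c := K) (fun x => sq_nonneg _) fun F => ?_
    have ht : Tendsto (fun n => ∑ x ∈ F, w n x ^ 2) (U : Filter ℕ) (𝓝 (∑ x ∈ F, u x ^ 2)) :=
      tendsto_finsetSum _ fun x _ => (hptw x).pow 2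
    exact le_of_tendsto' ht fun n => hfin n F
  · intro v j hv
    have ht : Tendsto (fun n => ∑ i ∈ X, A i j * w n (nb T Ξ v (Sum.inl i))) (U : Filter ℕ)
        (𝓝 (∑ i ∈ X, A i j * u (nb T Ξ v (Sum.inl i)))) :=
      tendsto_finsetSum _ fun i _ => (hptw _).const_mul _
    refine tendsto_nhds_unique ht ?_
    have hvy : y ≠ v := by
      rintro rfl
      rw [hy] at hv
      exact absurd hv (by simp)
    obtain ⟨p, hp1, hp2⟩ := exists_closer hc.tree v hvy
    obtain ⟨j2, hj2⟩ := green_of_adj_red hc hp1 hy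
    have hp' : nb T Ξ y (Sum.inr j2) = p := nb_eq' hc hp1 hj2
    have hev : ∀ᶠ n in (U : Filter ℕ), ∑ i ∈ X, A i j * w n (nb T Ξ v (Sum.inl i)) = 0 := by
      apply hU'
      filter_upwards [eventually_ge_atTop (T.dist v y)] with n hn
      exact (hw n).eqn j2 (Finset.mem_univ _) v (by rw [hp', mem_Br]; omega) j hv (by omega)
    exact (tendsto_congr' hev).2 tendsto_const_nhds

theorem exists_lift_of_red (hc : IsUnivCover T (completeBipartiteGraph (Fin r) (Fin g)) Ξ)
    (hg : 0 < g) (i : Fin r) : ∃ y, Ξ y = Sum.inl i := by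
  obtain ⟨x⟩ := hc.tree.1.nonempty
  rcases hx : Ξ x with i0 | j
  · have h1 : (completeBipartiteGraph (Fin r) (Fin g)).Adj (Ξ x) (Sum.inr ⟨0, hg⟩) := by
      rw [hx]; simp
    have h2 := ty_nb hc h1
    have h3 : (completeBipartiteGraph (Fin r) (Fin g)).Adj
        (Ξ (nb T Ξ x (Sum.inr ⟨0, hg⟩))) (Sum.inl i) := by
      rw [h2]; simp
    exact ⟨_, ty_nb hc h3⟩
  · have h1 : (completeBipartiteGraph (Fin r) (Fin g)).Adj (Ξ x) (Sum.inl i) := by
      rw [hx]; simp
    exact ⟨_, ty_nb hc h1⟩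

/-- Existence of eigenvectors. -/
theorem exists_eig (hc : IsUnivCover T (completeBipartiteGraph (Fin r) (Fin g)) Ξ)
    (hg : 1 ≤ g) {b : Fin r ⊕ Fin g → ℝ} {a : Fin r → Fin g → ℝ}
    (ha : ∀ i j, 0 < a i j) {lam : ℝ}
    (hX : g + 1 ≤ (Finset.univ.filter (fun i => b (Sum.inl i) = lam)).card) :
    ∃ u : V → ℂ, u ≠ 0 ∧ (Summable fun x => ‖u x‖ ^ 2) ∧
      ∀ x, (b (Ξ x) : ℂ) * u x + ∑ᶠ y ∈ T.neighborSet x, (wt a (Ξ x) (Ξ y) : ℂ) * u y =
        lam * u x := by
  classical
  set X : Finset (Fin r) := Finset.univ.filter (fun i => b (Sum.inl i) = lam) with hXdef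
  have hX2 : 2 ≤ X.card := by omega
  obtain ⟨i, hi, hbd⟩ := exists_bounded (g := g) ha hX hX2
  obtain ⟨y, hy⟩ := exists_lift_of_red hc hg i
  have hloc : ∀ n : ℕ, ∃ w, Loc T Ξ a X (n + 1) Finset.univ y (X.card : ℝ) w := by
    intro n
    obtain ⟨w, hw⟩ := loc_root hc ha hX2 hy hi n
    exact ⟨w, hw.one, hw.supp, hw.types, hw.sum, hw.en.trans (hbd n), hw.eqn⟩
  obtain ⟨u, u1, u2, u3, u4⟩ := exists_global hc hy hloc
  have hmemX : ∀ i, i ∈ X ↔ b (Sum.inl i) = lam := by
    intro i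
    rw [hXdef, Finset.mem_filter]
    simp
  have ugreen : ∀ x j, Ξ x = Sum.inr j → u x = 0 := by
    intro x j hx
    by_contra hne
    obtain ⟨i', _, hi'⟩ := u2 x hne
    rw [hx] at hi'
    exact absurd hi' (by simp)
  have ured : ∀ x i', Ξ x = Sum.inl i' → i' ∉ X → u x = 0 := by
    intro x i' hx hi'
    by_contra hne
    obtain ⟨i2, h1, h2⟩ := u2 x hne
    rw [hx] at h2
    exact hi' ((Sum.inl_injective h2) ▸ h1)
  refine ⟨fun x => (u x : ℂ), ?_, ?_, ?_⟩
  · intro h
    have := congrFun h y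
    simp [u1] at this
  · refine u3.congr fun x => ?_
    rw [Complex.norm_real, Real.norm_eq_abs, sq_abs]
  · intro x
    rw [finsum_nb hc]
    have hreal : b (Ξ x) * u x + ∑ c ∈ N (completeBipartiteGraph (Fin r) (Fin g)) (Ξ x),
        wt a (Ξ x) c * u (nb T Ξ x c) = lam * u x := by
      rcases hx : Ξ x with i' | j
      · have h0 : ∑ c ∈ N (completeBipartiteGraph (Fin r) (Fin g)) (Sum.inl i'),
            wt a (Sum.inl i') c * u (nb T Ξ x c) = 0 := by
          refine Finset.sum_eq_zero fun c hcN => ?_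
          rw [mem_N] at hcN
          rcases c with i2 | j
          · simp at hcN
          · have h1 : (completeBipartiteGraph (Fin r) (Fin g)).Adj (Ξ x) (Sum.inr j) := by
              rw [hx]; simp
            rw [ugreen _ j (ty_nb hc h1), mul_zero]
        rw [h0, add_zero]
        by_cases h : i' ∈ X
        · rw [(hmemX i').1 h]
        · rw [ured x i' hx h, mul_zero, mul_zero]
      · rw [ugreen x j hx, mul_zero, mul_zero, zero_add]
        have h1 : ∑ c ∈ N (completeBipartiteGraph (Fin r) (Fin g)) (Sum.inr j),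
            wt a (Sum.inr j) c * u (nb T Ξ x c) = ∑ i', a i' j * u (nb T Ξ x (Sum.inl i')) := by
          unfold N
          rw [Finset.sum_filter, Fintype.sum_sum_type]
          simp [wt]
        rw [h1, ← u4 x j hx]
        symm
        refine Finset.sum_subset (Finset.subset_univ _) fun i' _ hi' => ?_
        have h2 : (completeBipartiteGraph (Fin r) (Fin g)).Adj (Ξ x) (Sum.inl i') := by
          rw [hx]; simp
        rw [ured _ i' (ty_nb hc h2) hi', mul_zero]
    beta_reduce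
    exact_mod_cast hreal

end X107.JT
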