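import Pool.Agent.X107.JT.JT1

/-!
Universal covers of finite graphs, deck maps, and transport of eigenvectors.
-/

namespace X107.JT

open SimpleGraph

variable {V B : Type*} {T : SimpleGraph V} {C : SimpleGraph B} {Ξ : V → B}

/-- `T` is a tree and `Ξ` is a covering map of `T` onto its image in `C`. -/
structure IsUnivCover (T : SimpleGraph V) (C : SimpleGraph B) (Ξ : V → B) : Prop where
  tree : T.IsTree
  bij : ∀ x, Set.BijOn Ξ (T.neighborSet x) (C.neighborSet (Ξ x))

/-- The neighbours of a base vertex. -/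
noncomputable def N [Fintype B] (C : SimpleGraph B) (c : B) : Finset B := by
  classical exact Finset.univ.filter (fun c' => C.Adj c c')

theorem mem_N [Fintype B] {c c' : B} : c' ∈ N C c ↔ C.Adj c c' := by
  classical
  simp [N]

open Classical in
/-- The neighbour of `x` above `c`. -/
noncomputable def nb (T : SimpleGraph V) (Ξ : V → B) (x : V) (c : B) : V :=
  if h : ∃ y, T.Adj x y ∧ Ξ y = c then h.choose else x

theorem adj_base (hc : IsUnivCover T C Ξ) {x y : V} (h : T.Adj x y) : C.Adj (Ξ x) (Ξ y) :=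
  (hc.bij x).mapsTo h

theorem nb_spec (hc : IsUnivCover T C Ξ) {x : V} {c : B} (h : C.Adj (Ξ x) c) :
    T.Adj x (nb T Ξ x c) ∧ Ξ (nb T Ξ x c) = c := by
  have h1 : ∃ y, T.Adj x y ∧ Ξ y = c := by
    obtain ⟨y, hy, hy2⟩ := (hc.bij x).surjOn h
    exact ⟨y, hy, hy2⟩
  unfold nb
  rw [dif_pos h1]
  exact h1.choose_spec

theorem nb_adj (hc : IsUnivCover T C Ξ) {x : V} {c : B} (h : C.Adj (Ξ x) c) :
    T.Adj x (nb T Ξ x c) := (nb_spec hc h).1

theorem ty_nb (hc : IsUnivCover T C Ξ) {x : V} {c : B} (h : C.Adj (Ξ x) c) :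
    Ξ (nb T Ξ x c) = c := (nb_spec hc h).2

theorem nb_eq (hc : IsUnivCover T C Ξ) {x y : V} (h : T.Adj x y) :
    nb T Ξ x (Ξ y) = y := by
  have h1 := nb_spec hc (adj_base hc h)
  exact (hc.bij x).injOn h1.1 h h1.2

theorem nb_eq' (hc : IsUnivCover T C Ξ) {x y : V} {c : B} (h : T.Adj x y) (hy : Ξ y = c) :
    nb T Ξ x c = y := by
  rw [← hy]; exact nb_eq hc h

theorem nb_nb (hc : IsUnivCover T C Ξ) {x : V} {c : B} (h : C.Adj (Ξ x) c) :
    nb T Ξ (nb T Ξ x c) (Ξ x) = x :=
  nb_eq hc (nb_adj hc h).symm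

/-- Auxiliary recursion for deck maps. -/
noncomputable def deckAux (T : SimpleGraph V) (Ξ : V → B) (par : V → V) (x1 : V) : ℕ → V → V
  | 0, _ => x1
  | n + 1, w => nb T Ξ (deckAux T Ξ par x1 n (par w)) (Ξ w)

theorem exists_deck_aux (hc : IsUnivCover T C Ξ) {x0 x1 : V} (hx : Ξ x0 = Ξ x1) :
    ∃ f : V → V, f x0 = x1 ∧ (∀ w, Ξ (f w) = Ξ w) ∧ (∀ w v, T.Adj w v → T.Adj (f w) (f v)) := by
  classical
  have hpar : ∀ w : V, ∃ p, w ≠ x0 → (T.Adj w p ∧ T.dist x0 w = T.dist x0 p + 1) := by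
    intro w
    by_cases h : w = x0
    · exact ⟨w, fun h' => absurd h h'⟩
    · obtain ⟨p, hp⟩ := exists_closer hc.tree x0 h
      exact ⟨p, fun _ => hp⟩
  choose par hpar using hpar
  have key : ∀ n : ℕ, ∀ w, T.dist x0 w = n → Ξ (deckAux T Ξ par x1 n w) = Ξ w := by
    intro n
    induction n with
    | zero =>
      intro w hw
      have : x0 = w := (hc.tree.1.dist_eq_zero_iff).1 hw
      subst this
      exact hx.symm
    | succ n ih =>
      intro w hw
      have hne : w ≠ x0 := by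
        rintro rfl
        rw [T.dist_self] at hw
        omega
      obtain ⟨h1, h2⟩ := hpar w hne
      have h3 := ih (par w) (by omega)
      have h4 : C.Adj (Ξ (deckAux T Ξ par x1 n (par w))) (Ξ w) := by
        rw [h3]
        exact adj_base hc h1.symm
      exact ty_nb hc h4
  refine ⟨fun w => deckAux T Ξ par x1 (T.dist x0 w) w, ?_, fun w => key _ w rfl, ?_⟩
  · show deckAux T Ξ par x1 (T.dist x0 x0) x0 = x1
    rw [T.dist_self]
    rfl
  · -- adjacency
    have main : ∀ w v, T.Adj w v → T.dist x0 v = T.dist x0 w + 1 →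
        T.Adj (deckAux T Ξ par x1 (T.dist x0 w) w) (deckAux T Ξ par x1 (T.dist x0 v) v) := by
      intro w v hwv hd
      have hne : v ≠ x0 := by
        rintro rfl
        rw [T.dist_self] at hd
        omega
      obtain ⟨h1, h2⟩ := hpar v hne
      have hp : par v = w := by
        apply closer_unique hc.tree x0 h1 hwv.symm
        · omega
        · omega
      rw [hd]
      show T.Adj _ (nb T Ξ (deckAux T Ξ par x1 (T.dist x0 w) (par v)) (Ξ v))
      rw [hp]
      apply nb_adj hc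
      rw [key _ w rfl]
      exact adj_base hc hwv
    intro w v hwv
    rcases dist_eq_or hc.tree x0 hwv with h | h
    · exact (main v w hwv.symm h).symm
    · exact main w v hwv h

theorem deck_unique (hc : IsUnivCover T C Ξ) {x0 : V} {h : V → V} (h0 : h x0 = x0)
    (h1 : ∀ w, Ξ (h w) = Ξ w) (h2 : ∀ w v, T.Adj w v → T.Adj (h w) (h v)) :
    ∀ w, h w = w := by
  have : ∀ n : ℕ, ∀ w, T.dist x0 w = n → h w = w := by
    intro n
    induction n with
    | zero =>
      intro w hw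
      have : x0 = w := (hc.tree.1.dist_eq_zero_iff).1 hw
      subst this
      exact h0
    | succ n ih =>
      intro w hw
      have hne : w ≠ x0 := by
        rintro rfl
        rw [T.dist_self] at hw
        omega
      obtain ⟨p, hp1, hp2⟩ := exists_closer hc.tree x0 hne
      have h3 := ih p (by omega)
      have h4 := h2 p w hp1.symm
      rw [h3] at h4
      have h5 := nb_eq' hc h4 (h1 w)
      have h6 := nb_eq hc hp1.symm
      rw [← h5, h6]
  intro w
  exact this _ w rfl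

theorem exists_deck (hc : IsUnivCover T C Ξ) {x0 x1 : V} (hx : Ξ x0 = Ξ x1) :
    ∃ f : V → V, f x0 = x1 ∧ (∀ w, Ξ (f w) = Ξ w) ∧ (∀ w v, T.Adj w v → T.Adj (f w) (f v)) ∧
      Function.Injective f := by
  obtain ⟨f, f1, f2, f3⟩ := exists_deck_aux hc hx
  obtain ⟨k, k1, k2, k3⟩ := exists_deck_aux hc hx.symm
  refine ⟨f, f1, f2, f3, ?_⟩
  have hid : ∀ w, k (f w) = w := by
    apply deck_unique hc (x0 := x0) (h := fun w => k (f w))
    · show k (f x0) = x0
      rw [f1, k1]
    · intro w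
      show Ξ (k (f w)) = Ξ w
      rw [k2, f2]
    · intro w v hwv
      exact k3 _ _ (f3 _ _ hwv)
  intro a b hab
  rw [← hid a, ← hid b, hab]

/-- Real square-summable solutions of `Hu = lam u`. -/
structure IsEig [Fintype B] (T : SimpleGraph V) (C : SimpleGraph B) (Ξ : V → B)
    (b : B → ℝ) (a : B → B → ℝ) (lam : ℝ) (u : V → ℝ) : Prop where
  sq : Summable (fun x => u x ^ 2)
  eq : ∀ x, b (Ξ x) * u x + ∑ c ∈ N C (Ξ x), a (Ξ x) c * u (nb T Ξ x c) = lam * u x

variable [Fintype B] {b : B → ℝ} {a : B → B → ℝ} {lam : ℝ}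

theorem IsEig.smul {u : V → ℝ} (h : IsEig T C Ξ b a lam u) (k : ℝ) :
    IsEig T C Ξ b a lam (fun x => k * u x) := by
  refine ⟨?_, fun x => ?_⟩
  · have := h.sq.mul_left (k ^ 2)
    refine this.congr fun x => ?_
    ring
  · have := h.eq x
    have e : ∑ c ∈ N C (Ξ x), a (Ξ x) c * (k * u (nb T Ξ x c)) =
        k * ∑ c ∈ N C (Ξ x), a (Ξ x) c * u (nb T Ξ x c) := by
      rw [Finset.mul_sum]
      refine Finset.sum_congr rfl fun c _ => ?_
      ring
    rw [e]
    linear_combination k * this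

theorem IsEig.deck (hc : IsUnivCover T C Ξ) {u : V → ℝ} (h : IsEig T C Ξ b a lam u) {f : V → V}
    (f2 : ∀ w, Ξ (f w) = Ξ w) (f3 : ∀ w v, T.Adj w v → T.Adj (f w) (f v))
    (f4 : Function.Injective f) :
    IsEig T C Ξ b a lam (fun x => u (f x)) := by
  refine ⟨?_, fun x => ?_⟩
  · exact h.sq.comp_injective f4
  · have := h.eq (f x)
    rw [f2] at this
    rw [← this]
    congr 1
    refine Finset.sum_congr rfl fun c hcN => ?_
    rw [mem_N] at hcN
    have e : nb T Ξ (f x) c = f (nb T Ξ x c) := by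
      apply nb_eq' hc (f3 _ _ (nb_adj hc hcN))
      rw [f2, ty_nb hc hcN]
    rw [e]

/-- Transport: an eigenvector equal to `1` at one lift gives one equal to `1` at any other lift,
with the same values near the lift. -/
theorem IsEig.transport (hc : IsUnivCover T C Ξ) {u : V → ℝ} (h : IsEig T C Ξ b a lam u)
    {x0 x1 : V} (hx : Ξ x0 = Ξ x1) :
    ∃ u' : V → ℝ, IsEig T C Ξ b a lam u' ∧ u' x0 = u x1 ∧
      ∀ c, C.Adj (Ξ x0) c → u' (nb T Ξ x0 c) = u (nb T Ξ x1 c) := by
  obtain ⟨f, f1, f2, f3, f4⟩ := exists_deck hc hx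
  refine ⟨fun x => u (f x), h.deck hc f2 f3 f4, by simp [f1], fun c hcc => ?_⟩
  show u (f (nb T Ξ x0 c)) = _
  congr 1
  symm
  rw [← f1]
  apply nb_eq' hc (f3 _ _ (nb_adj hc hcc))
  rw [f2, ty_nb hc hcc]

end X107.JT
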