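import Pool.Agent.X107.JT.JT2

/-!
The Wronskian of two square-summable eigenvectors vanishes on every edge.
-/

namespace X107.JT

open SimpleGraph

variable {V B : Type*} {T : SimpleGraph V} {C : SimpleGraph B} {Ξ : V → B}

open Classical in
/-- Reversal of darts, as a map of `V × B`. -/
noncomputable def rev (T : SimpleGraph V) (C : SimpleGraph B) (Ξ : V → B) (p : V × B) : V × B :=
  if C.Adj (Ξ p.1) p.2 then (nb T Ξ p.1 p.2, Ξ p.1) else p

theorem rev_rev (hc : IsUnivCover T C Ξ) (p : V × B) : rev T C Ξ (rev T C Ξ p) = p := by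
  unfold rev
  by_cases h : C.Adj (Ξ p.1) p.2
  · rw [if_pos h]
    have h1 : Ξ (nb T Ξ p.1 p.2) = p.2 := ty_nb hc h
    have h2 : C.Adj (Ξ (nb T Ξ p.1 p.2)) (Ξ p.1) := by rw [h1]; exact h.symm
    simp only [h2, if_true]
    rw [nb_nb hc h, h1]
  · rw [if_neg h]
    simp only [h, if_false]

/-- The dart reversal as an equivalence. -/
noncomputable def revE (hc : IsUnivCover T C Ξ) : (V × B) ≃ (V × B) where
  toFun := rev T C Ξ
  invFun := rev T C Ξ
  left_inv := rev_rev hc
  right_inv := rev_rev hc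

variable [Fintype B] {b : B → ℝ} {a : B → B → ℝ} {lam : ℝ}

theorem summable_prod_fin {u : V → ℝ} (hu : Summable fun x => u x ^ 2) :
    Summable fun p : V × B => u p.1 ^ 2 := by
  have := hu.mul_of_nonneg (hasSum_fintype (fun _ : B => (1 : ℝ))).summable
    (fun x => sq_nonneg _) (fun _ => zero_le_one)
  simpa using this

open Classical in
theorem wronskian (hc : IsUnivCover T C Ξ) (ha : ∀ c c', a c c' = a c' c)
    (hpos : ∀ c c', C.Adj c c' → 0 < a c c')
    {u u' : V → ℝ} (hu : IsEig T C Ξ b a lam u) (hu' : IsEig T C Ξ b a lam u')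
    {x y : V} (hxy : T.Adj x y) : u x * u' y = u y * u' x := by
  set A : V → ℝ := (Br T x y).indicator (fun _ => 1) with hA
  set om : V → V → ℝ := fun v w => a (Ξ v) (Ξ w) * (u v * u' w - u w * u' v) with hom
  have omanti : ∀ v w, om w v = - om v w := by
    intro v w
    simp only [hom]
    rw [ha (Ξ w) (Ξ v)]
    ring
  set F : V × B → ℝ := fun p =>
    if C.Adj (Ξ p.1) p.2 then A p.1 * om p.1 (nb T Ξ p.1 p.2) else 0 with hF
  -- divergence
  have hdiv : ∀ v, ∑ c ∈ N C (Ξ v), om v (nb T Ξ v c) = 0 := by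
    intro v
    have e1 : ∑ c ∈ N C (Ξ v), om v (nb T Ξ v c) =
        u v * (∑ c ∈ N C (Ξ v), a (Ξ v) c * u' (nb T Ξ v c)) -
        u' v * (∑ c ∈ N C (Ξ v), a (Ξ v) c * u (nb T Ξ v c)) := by
      rw [Finset.mul_sum, Finset.mul_sum, ← Finset.sum_sub_distrib]
      refine Finset.sum_congr rfl fun c hcN => ?_
      rw [mem_N] at hcN
      simp only [hom]
      rw [ty_nb hc hcN]
      ring
    have e2 := hu.eq v
    have e3 := hu'.eq v
    rw [e1]
    linear_combination u v * e3 - u' v * e2
  -- summability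
  set K : ℝ := ∑ c, ∑ c', |a c c'| with hK
  have haK : ∀ c c', |a c c'| ≤ K := by
    intro c c'
    calc |a c c'| ≤ ∑ c', |a c c'| :=
          Finset.single_le_sum (f := fun c' => |a c c'|) (fun _ _ => abs_nonneg _)
            (Finset.mem_univ c')
      _ ≤ K := Finset.single_le_sum (f := fun c => ∑ c', |a c c'|)
            (fun _ _ => Finset.sum_nonneg fun _ _ => abs_nonneg _) (Finset.mem_univ c)
  have hK0 : 0 ≤ K := Finset.sum_nonneg fun _ _ => Finset.sum_nonneg fun _ _ => abs_nonneg _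
  have s1 : Summable fun p : V × B => u p.1 ^ 2 := summable_prod_fin hu.sq
  have s2 : Summable fun p : V × B => u' p.1 ^ 2 := summable_prod_fin hu'.sq
  have s3 : Summable fun p : V × B => u (rev T C Ξ p).1 ^ 2 :=
    s1.comp_injective (revE hc).injective
  have s4 : Summable fun p : V × B => u' (rev T C Ξ p).1 ^ 2 :=
    s2.comp_injective (revE hc).injective
  have sF : Summable F := by
    have hb : Summable fun p : V × B => K * (u p.1 ^ 2 + u' p.1 ^ 2 +
        (u (rev T C Ξ p).1 ^ 2 + u' (rev T C Ξ p).1 ^ 2)) :=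
      ((s1.add s2).add (s3.add s4)).mul_left K
    refine Summable.of_norm_bounded hb fun p => ?_
    simp only [hF]
    by_cases h : C.Adj (Ξ p.1) p.2
    · have hr : (rev T C Ξ p).1 = nb T Ξ p.1 p.2 := by
        unfold rev
        rw [if_pos h]
      rw [if_pos h, hr, Real.norm_eq_abs, abs_mul]
      have hA1 : |A p.1| ≤ 1 := by
        simp only [hA, Set.indicator]
        split_ifs <;> simp
      have hom1 : |om p.1 (nb T Ξ p.1 p.2)| ≤ K * (u p.1 ^ 2 + u' p.1 ^ 2 +
          (u (nb T Ξ p.1 p.2) ^ 2 + u' (nb T Ξ p.1 p.2) ^ 2)) := by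
        simp only [hom]
        rw [abs_mul]
        refine mul_le_mul (haK _ _) ?_ (abs_nonneg _) hK0
        rw [abs_le]
        constructor <;>
          nlinarith [sq_nonneg (u p.1 - u' (nb T Ξ p.1 p.2)), sq_nonneg (u p.1 + u' (nb T Ξ p.1 p.2)),
            sq_nonneg (u (nb T Ξ p.1 p.2) - u' p.1), sq_nonneg (u (nb T Ξ p.1 p.2) + u' p.1)]
      calc |A p.1| * |om p.1 (nb T Ξ p.1 p.2)| ≤ 1 * |om p.1 (nb T Ξ p.1 p.2)| :=
            mul_le_mul_of_nonneg_right hA1 (abs_nonneg _)
        _ ≤ _ := by rw [one_mul]; exact hom1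
    · rw [if_neg h, norm_zero]
      positivity
  have sFr : Summable fun p => F (rev T C Ξ p) := sF.comp_injective (revE hc).injective
  have t1 : ∑' p, F p = 0 := by
    rw [sF.tsum_prod]
    have : ∀ v, ∑' c, F (v, c) = 0 := by
      intro v
      rw [tsum_fintype]
      have e : ∑ c, F (v, c) = A v * ∑ c ∈ N C (Ξ v), om v (nb T Ξ v c) := by
        rw [Finset.mul_sum]
        have e2 : ∑ c, F (v, c) = ∑ c, if c ∈ N C (Ξ v) then A v * om v (nb T Ξ v c) else 0 := by
          refine Finset.sum_congr rfl fun c _ => ?_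
          simp only [hF, mem_N]
        rw [e2, Finset.sum_ite_mem, Finset.univ_inter]
      rw [e, hdiv, mul_zero]
    simp only [this, tsum_zero]
  have t2 : ∑' p, F (rev T C Ξ p) = 0 := by
    rw [← t1]
    exact (revE hc).tsum_eq F
  have t3 : ∑' p, (F p + F (rev T C Ξ p)) = 0 := by
    rw [sF.tsum_add sFr, t1, t2, add_zero]
  -- values
  have hval : ∀ p : V × B, C.Adj (Ξ p.1) p.2 → F p + F (rev T C Ξ p) =
      (A p.1 - A (nb T Ξ p.1 p.2)) * om p.1 (nb T Ξ p.1 p.2) := by
    intro p h
    have hr : rev T C Ξ p = (nb T Ξ p.1 p.2, Ξ p.1) := by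
      unfold rev
      rw [if_pos h]
    have h1 : Ξ (nb T Ξ p.1 p.2) = p.2 := ty_nb hc h
    have h2 : C.Adj (Ξ (nb T Ξ p.1 p.2)) (Ξ p.1) := by rw [h1]; exact h.symm
    rw [hr]
    simp only [hF]
    rw [if_pos h, if_pos h2, nb_nb hc h, omanti p.1 (nb T Ξ p.1 p.2)]
    ring
  have hval0 : ∀ p : V × B, ¬ C.Adj (Ξ p.1) p.2 → F p + F (rev T C Ξ p) = 0 := by
    intro p h
    have hr : rev T C Ξ p = p := by
      unfold rev
      rw [if_neg h]
    rw [hr]
    simp only [hF]
    rw [if_neg h, add_zero]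
  have hAy : A y = 1 := by
    simp only [hA, Set.indicator, self_mem_Br hc.tree hxy, if_true]
  have hAx : A x = 0 := by
    simp only [hA, Set.indicator, left_not_mem_Br, if_false]
  have hne : ((y, Ξ x) : V × B) ≠ (x, Ξ y) := by
    intro h
    exact hxy.ne' (Prod.mk.inj h).1
  have t4 : ∑' p, (F p + F (rev T C Ξ p)) =
      ∑ p ∈ ({(y, Ξ x), (x, Ξ y)} : Finset (V × B)), (F p + F (rev T C Ξ p)) := by
    apply tsum_eq_sum
    intro p hp
    by_cases h : C.Adj (Ξ p.1) p.2
    · rw [hval p h]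
      have hadj := nb_adj hc h
      by_cases h1 : p.1 ∈ Br T x y
      · by_cases h2 : nb T Ξ p.1 p.2 ∈ Br T x y
        · simp only [hA, Set.indicator, h1, h2, if_true, sub_self, zero_mul]
        · exfalso
          obtain ⟨e1, e2⟩ := leave_Br hc.tree hxy hadj h1 h2
          apply hp
          have : p = (y, Ξ x) := by
            apply Prod.ext
            · exact e1
            · show p.2 = Ξ x
              rw [← e2, ty_nb hc h]
          rw [this]
          simp
      · by_cases h2 : nb T Ξ p.1 p.2 ∈ Br T x y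
        · exfalso
          obtain ⟨e1, e2⟩ := leave_Br hc.tree hxy hadj.symm h2 h1
          apply hp
          have : p = (x, Ξ y) := by
            apply Prod.ext
            · exact e2
            · show p.2 = Ξ y
              rw [← e1, ty_nb hc h]
          rw [this]
          simp
        · simp only [hA, Set.indicator, h1, h2, if_false, sub_self, zero_mul]
    · exact hval0 p h
  rw [t4, Finset.sum_pair hne] at t3
  have hbyx : C.Adj (Ξ y) (Ξ x) := adj_base hc hxy.symm
  have v1 := hval (y, Ξ x) hbyx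
  have v2 := hval (x, Ξ y) hbyx.symm
  simp only at v1 v2
  rw [nb_eq hc hxy.symm, hAy, hAx] at v1
  rw [nb_eq hc hxy, hAy, hAx, omanti y x] at v2
  rw [v1, v2] at t3
  have hp := hpos _ _ hbyx
  have e5 : om y x = 0 := by linarith
  simp only [hom] at e5
  rcases mul_eq_zero.1 e5 with h | h
  · exact absurd h hp.ne'
  · linarith

end X107.JT
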