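import Pool.Agent.X107.JT.JT3

/-!
Branch energies and their infima.
-/

namespace X107.JT

open SimpleGraph

variable {V B : Type*} {T : SimpleGraph V} {C : SimpleGraph B} {Ξ : V → B}

/-- The energy of `u` on the branch at `y` seen from `x`. -/
noncomputable def en (T : SimpleGraph V) (u : V → ℝ) (x y : V) : ℝ :=
  ∑' w, (Br T x y).indicator (fun w => u w ^ 2) w

theorem en_nonneg (u : V → ℝ) (x y : V) : 0 ≤ en T u x y :=
  tsum_nonneg fun w => Set.indicator_nonneg (fun _ _ => sq_nonneg _) w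

theorem en_smul (u : V → ℝ) (k : ℝ) (x y : V) :
    en T (fun w => k * u w) x y = k ^ 2 * en T u x y := by
  unfold en
  rw [← tsum_mul_left]
  refine tsum_congr fun w => ?_
  by_cases h : w ∈ Br T x y
  · rw [Set.indicator_of_mem h, Set.indicator_of_mem h]; ring
  · rw [Set.indicator_of_notMem h, Set.indicator_of_notMem h]; ring

variable [Fintype B]

open Classical in
/-- The energy decomposition (inequality). -/
theorem en_ge (hc : IsUnivCover T C Ξ) {u : V → ℝ} (hu : Summable fun x => u x ^ 2) {x y : V}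
    (hxy : T.Adj x y) :
    u y ^ 2 + ∑ c ∈ (N C (Ξ y)).erase (Ξ x), en T u y (nb T Ξ y c) ≤ en T u x y := by
  have hs : ∀ z c, Summable ((Br T z c).indicator (fun w => u w ^ 2)) := fun z c =>
    hu.indicator _
  have hmem : ∀ c ∈ (N C (Ξ y)).erase (Ξ x), T.Adj y (nb T Ξ y c) ∧ nb T Ξ y c ≠ x ∧
      Ξ (nb T Ξ y c) = c := by
    intro c hcN
    rw [Finset.mem_erase, mem_N] at hcN
    refine ⟨nb_adj hc hcN.2, ?_, ty_nb hc hcN.2⟩
    intro h
    apply hcN.1
    rw [← h, ty_nb hc hcN.2]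
  have e1 : u y ^ 2 = ∑' w, if w = y then u y ^ 2 else 0 := by
    rw [tsum_ite_eq]
  have e2 : ∑ c ∈ (N C (Ξ y)).erase (Ξ x), en T u y (nb T Ξ y c) =
      ∑' w, ∑ c ∈ (N C (Ξ y)).erase (Ξ x), (Br T y (nb T Ξ y c)).indicator (fun w => u w ^ 2) w := by
    unfold en
    rw [Summable.tsum_finsetSum]
    intro c _
    exact hs _ _
  have s1 : Summable fun w => if w = y then u y ^ 2 else 0 := by
    apply summable_of_ne_finset_zero (s := {y})
    intro w hw
    rw [Finset.mem_singleton] at hw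
    rw [if_neg hw]
  have s2 : Summable fun w => ∑ c ∈ (N C (Ξ y)).erase (Ξ x),
      (Br T y (nb T Ξ y c)).indicator (fun w => u w ^ 2) w :=
    summable_sum fun c _ => hs _ _
  rw [e1, e2, ← s1.tsum_add s2]
  unfold en
  refine (s1.add s2).tsum_le_tsum ?_ (hs _ _)
  intro w
  by_cases hw : w ∈ Br T x y
  · rw [Set.indicator_of_mem hw]
    by_cases hwy : w = y
    · subst hwy
      rw [if_pos rfl, Finset.sum_eq_zero, add_zero]
      intro c _
      rw [Set.indicator_of_notMem left_not_mem_Br]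
    · rw [if_neg hwy, zero_add]
      by_cases hex : ∃ c ∈ (N C (Ξ y)).erase (Ξ x), w ∈ Br T y (nb T Ξ y c)
      · obtain ⟨c, hcm, hwc⟩ := hex
        rw [Finset.sum_eq_single c]
        · rw [Set.indicator_of_mem hwc]
        · intro c' hc' hne
          rw [Set.indicator_of_notMem]
          intro hwc'
          obtain ⟨m1, m2, m3⟩ := hmem c hcm
          obtain ⟨m1', m2', m3'⟩ := hmem c' hc'
          have hnn : nb T Ξ y c ≠ nb T Ξ y c' := by
            intro h
            apply hne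
            rw [← m3, ← m3', h]
          exact Set.disjoint_left.1 (Br_disj hc.tree m1 m1' hnn) hwc hwc'
        · intro h
          exact absurd hcm h
      · rw [Finset.sum_eq_zero]
        · exact sq_nonneg _
        · intro c hcm
          rw [Set.indicator_of_notMem]
          intro h
          exact hex ⟨c, hcm, h⟩
  · rw [Set.indicator_of_notMem hw]
    have hwy : w ≠ y := by
      rintro rfl
      exact hw (self_mem_Br hc.tree hxy)
    rw [if_neg hwy, zero_add, Finset.sum_eq_zero]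
    intro c hcm
    obtain ⟨m1, m2, m3⟩ := hmem c hcm
    rw [Set.indicator_of_notMem]
    intro h
    exact hw (Br_sub hc.tree hxy m1 m2 h)

/-- The set of energies across `(c, c')` of eigenvectors normalised at a lift of `c`. -/
def enSet (T : SimpleGraph V) (C : SimpleGraph B) (Ξ : V → B) (b : B → ℝ) (a : B → B → ℝ)
    (lam : ℝ) (c c' : B) : Set ℝ :=
  {e | ∃ u x, IsEig T C Ξ b a lam u ∧ Ξ x = c ∧ u x = 1 ∧ e = en T u x (nb T Ξ x c')}

/-- The infimum `t(c,c')`. -/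
noncomputable def tt (T : SimpleGraph V) (C : SimpleGraph B) (Ξ : V → B) (b : B → ℝ)
    (a : B → B → ℝ) (lam : ℝ) (c c' : B) : ℝ :=
  sInf (enSet T C Ξ b a lam c c')

/-- The base vertices above which some eigenvector does not vanish. -/
def XX (T : SimpleGraph V) (C : SimpleGraph B) (Ξ : V → B) (b : B → ℝ)
    (a : B → B → ℝ) (lam : ℝ) : Set B :=
  {c | ∃ u x, IsEig T C Ξ b a lam u ∧ Ξ x = c ∧ u x ≠ 0}

variable {b : B → ℝ} {a : B → B → ℝ} {lam : ℝ}

theorem enSet_nonneg {c c' : B} : ∀ e ∈ enSet T C Ξ b a lam c c', 0 ≤ e := by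
  rintro e ⟨u, x, _, _, _, rfl⟩
  exact en_nonneg _ _ _

theorem tt_nonneg (c c' : B) : 0 ≤ tt T C Ξ b a lam c c' :=
  Real.sInf_nonneg enSet_nonneg

theorem tt_le {u : V → ℝ} (hu : IsEig T C Ξ b a lam u) (x : V) (c' : B) :
    u x ^ 2 * tt T C Ξ b a lam (Ξ x) c' ≤ en T u x (nb T Ξ x c') := by
  by_cases h : u x = 0
  · rw [h]
    have := en_nonneg (T := T) u x (nb T Ξ x c')
    simpa using this
  · have h1 := hu.smul ((u x)⁻¹)
    have h2 : en T (fun w => (u x)⁻¹ * u w) x (nb T Ξ x c') ∈ enSet T C Ξ b a lam (Ξ x) c' :=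
      ⟨_, x, h1, rfl, inv_mul_cancel₀ h, rfl⟩
    have h3 : tt T C Ξ b a lam (Ξ x) c' ≤ _ := csInf_le ⟨0, enSet_nonneg⟩ h2
    rw [en_smul] at h3
    have h4 : 0 < u x ^ 2 := by positivity
    calc u x ^ 2 * tt T C Ξ b a lam (Ξ x) c' ≤
        u x ^ 2 * ((u x)⁻¹ ^ 2 * en T u x (nb T Ξ x c')) := by
          exact mul_le_mul_of_nonneg_left h3 h4.le
      _ = en T u x (nb T Ξ x c') := by
          field_simp

open Classical in
/-- `S(c|c')`. -/
noncomputable def SS (T : SimpleGraph V) (C : SimpleGraph B) (Ξ : V → B) (b : B → ℝ)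
    (a : B → B → ℝ) (lam : ℝ) (c c' : B) : ℝ :=
  1 + ∑ c'' ∈ (N C c).erase c', tt T C Ξ b a lam c c''

theorem SS_ge_one (c c' : B) : 1 ≤ SS T C Ξ b a lam c c' := by
  classical
  unfold SS
  have := Finset.sum_nonneg (s := (N C c).erase c') (f := fun c'' => tt T C Ξ b a lam c c'')
    (fun c'' _ => tt_nonneg c c'')
  linarith

theorem SS_le (hc : IsUnivCover T C Ξ) {u : V → ℝ} (hu : IsEig T C Ξ b a lam u) {x y : V}
    (hxy : T.Adj x y) :
    u y ^ 2 * SS T C Ξ b a lam (Ξ y) (Ξ x) ≤ en T u x y := by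
  classical
  refine le_trans ?_ (en_ge hc hu.sq hxy)
  unfold SS
  rw [mul_add, mul_one, Finset.mul_sum]
  have : ∑ c ∈ (N C (Ξ y)).erase (Ξ x), u y ^ 2 * tt T C Ξ b a lam (Ξ y) c ≤
      ∑ c ∈ (N C (Ξ y)).erase (Ξ x), en T u y (nb T Ξ y c) :=
    Finset.sum_le_sum fun c _ => tt_le hu y c
  linarith

/-- Existence of a normalised eigenvector at every lift of a vertex of `X`. -/
theorem exists_norm (hc : IsUnivCover T C Ξ) {c : B} (hX : c ∈ XX T C Ξ b a lam) {x : V}
    (hx : Ξ x = c) : ∃ u, IsEig T C Ξ b a lam u ∧ u x = 1 := by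
  obtain ⟨u, z, hu, hz, hne⟩ := hX
  obtain ⟨u', hu', h1, _⟩ := hu.transport hc (x0 := x) (x1 := z) (by rw [hx, hz])
  refine ⟨_, hu'.smul ((u z)⁻¹), ?_⟩
  show (u z)⁻¹ * u' x = 1
  rw [h1, inv_mul_cancel₀ hne]

theorem exists_lift {c : B} (hX : c ∈ XX T C Ξ b a lam) : ∃ x, Ξ x = c := by
  obtain ⟨u, z, hu, hz, hne⟩ := hX
  exact ⟨z, hz⟩

/-- The common ratio of two adjacent vertices of `X`. -/
theorem ratio (hc : IsUnivCover T C Ξ) (ha : ∀ c c', a c c' = a c' c)
    (hpos : ∀ c c', C.Adj c c' → 0 < a c c') {c c' : B} (hcc : C.Adj c c')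
    (h1 : c ∈ XX T C Ξ b a lam) (h2 : c' ∈ XX T C Ξ b a lam) :
    ∃ ρ ρ' : ℝ, ρ * ρ' = 1 ∧
      (∀ v z, IsEig T C Ξ b a lam v → Ξ z = c → v z = 1 → v (nb T Ξ z c') = ρ) ∧
      (∀ v z, IsEig T C Ξ b a lam v → Ξ z = c' → v z = 1 → v (nb T Ξ z c) = ρ') := by
  obtain ⟨x, hx⟩ := exists_lift h1
  have hcx : C.Adj (Ξ x) c' := by rw [hx]; exact hcc
  have hxy := nb_adj hc hcx
  have hy : Ξ (nb T Ξ x c') = c' := ty_nb hc hcx
  set y := nb T Ξ x c' with hydef
  have hyx : nb T Ξ y c = x := nb_eq' hc hxy.symm hx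
  obtain ⟨u, hu, hux⟩ := exists_norm hc h1 hx
  obtain ⟨u', hu', huy⟩ := exists_norm hc h2 hy
  have hw := wronskian hc ha hpos hu hu' hxy
  rw [hux, huy, one_mul] at hw
  refine ⟨u y, u' x, hw.symm, ?_, ?_⟩
  · intro v z hv hz hvz
    obtain ⟨v', hv', e1, e2⟩ := hv.transport hc (x0 := x) (x1 := z) (by rw [hx, hz])
    have e3 := e2 c' hcx
    rw [← e3]
    have hw2 := wronskian hc ha hpos hv' hu' hxy
    rw [e1, hvz, huy, one_mul] at hw2
    -- 1 = v' y * u' x
    have hne : u' x ≠ 0 := by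
      intro h
      rw [h, mul_zero] at hw
      exact one_ne_zero hw
    have : v' y * u' x = u y * u' x := by rw [← hw2, ← hw]
    exact mul_right_cancel₀ hne this
  · intro v z hv hz hvz
    obtain ⟨v', hv', e1, e2⟩ := hv.transport hc (x0 := y) (x1 := z) (by rw [hy, hz])
    have e3 := e2 c (by rw [hy]; exact hcc.symm)
    rw [← e3, hyx]
    have hw2 := wronskian hc ha hpos hu hv' hxy
    rw [e1, hvz, hux, one_mul] at hw2
    have hne : u y ≠ 0 := by
      intro h
      rw [h, zero_mul] at hw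
      exact one_ne_zero hw
    have : u y * v' x = u y * u' x := by rw [← hw2, ← hw]
    exact mul_left_cancel₀ hne this

theorem enSet_nonempty (hc : IsUnivCover T C Ξ) {c : B} (hX : c ∈ XX T C Ξ b a lam) (c' : B) :
    (enSet T C Ξ b a lam c c').Nonempty := by
  obtain ⟨x, hx⟩ := exists_lift hX
  obtain ⟨u, hu, hux⟩ := exists_norm hc hX hx
  exact ⟨_, u, x, hu, hx, hux, rfl⟩

/-- Case (a): both ends in `X`. -/
theorem case_a (hc : IsUnivCover T C Ξ) (ha : ∀ c c', a c c' = a c' c)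
    (hpos : ∀ c c', C.Adj c c' → 0 < a c c') {c c' : B} (hcc : C.Adj c c')
    (h1 : c ∈ XX T C Ξ b a lam) (h2 : c' ∈ XX T C Ξ b a lam) :
    SS T C Ξ b a lam c' c * SS T C Ξ b a lam c c' ≤
      tt T C Ξ b a lam c c' * tt T C Ξ b a lam c' c := by
  obtain ⟨ρ, ρ', hρ, r1, r2⟩ := ratio hc ha hpos hcc h1 h2
  have k1 : ρ ^ 2 * SS T C Ξ b a lam c' c ≤ tt T C Ξ b a lam c c' := by
    refine le_csInf (enSet_nonempty hc h1 c') ?_
    rintro e ⟨u, x, hu, hx, hux, rfl⟩
    have hcx : C.Adj (Ξ x) c' := by rw [hx]; exact hcc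
    have := SS_le hc hu (nb_adj hc hcx)
    rw [r1 u x hu hx hux, ty_nb hc hcx, hx] at this
    exact this
  have k2 : ρ' ^ 2 * SS T C Ξ b a lam c c' ≤ tt T C Ξ b a lam c' c := by
    refine le_csInf (enSet_nonempty hc h2 c) ?_
    rintro e ⟨u, x, hu, hx, hux, rfl⟩
    have hcx : C.Adj (Ξ x) c := by rw [hx]; exact hcc.symm
    have := SS_le hc hu (nb_adj hc hcx)
    rw [r2 u x hu hx hux, ty_nb hc hcx, hx] at this
    exact this
  have p1 := SS_ge_one (T := T) (C := C) (Ξ := Ξ) (b := b) (a := a) (lam := lam) c' c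
  have p2 := SS_ge_one (T := T) (C := C) (Ξ := Ξ) (b := b) (a := a) (lam := lam) c c'
  calc SS T C Ξ b a lam c' c * SS T C Ξ b a lam c c'
      = (ρ * ρ') ^ 2 * (SS T C Ξ b a lam c' c * SS T C Ξ b a lam c c') := by
        rw [hρ]; ring
    _ = (ρ ^ 2 * SS T C Ξ b a lam c' c) * (ρ' ^ 2 * SS T C Ξ b a lam c c') := by ring
    _ ≤ _ := by
        refine mul_le_mul k1 k2 ?_ (tt_nonneg _ _)
        positivity

end X107.JT
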