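import Pool.Agent.X107.JT.JT4

/-!
The inequality `#X > q(X) + #∂X`.
-/

namespace X107.JT

open SimpleGraph

variable {V B : Type*} {T : SimpleGraph V} {C : SimpleGraph B} {Ξ : V → B}

variable [Fintype B] {b : B → ℝ} {a : B → B → ℝ} {lam : ℝ}

/-- `S(c) = 1 + Σ t(c,c')`. -/
noncomputable def S1 (T : SimpleGraph V) (C : SimpleGraph B) (Ξ : V → B) (b : B → ℝ)
    (a : B → B → ℝ) (lam : ℝ) (c : B) : ℝ :=
  1 + ∑ c'' ∈ N C c, tt T C Ξ b a lam c c''

theorem S1_eq {c c' : B} (h : C.Adj c c') :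
    S1 T C Ξ b a lam c = SS T C Ξ b a lam c c' + tt T C Ξ b a lam c c' := by
  classical
  unfold S1 SS
  rw [← Finset.sum_erase_add _ _ (mem_N.2 h)]
  ring

theorem S1_ge_one (c : B) : 1 ≤ S1 T C Ξ b a lam c := by
  unfold S1
  have := Finset.sum_nonneg (s := N C c) (f := fun c'' => tt T C Ξ b a lam c c'')
    (fun c'' _ => tt_nonneg c c'')
  linarith

theorem S1_pos (T : SimpleGraph V) (C : SimpleGraph B) (Ξ : V → B) (b : B → ℝ)
    (a : B → B → ℝ) (lam : ℝ) (c : B) : 0 < S1 T C Ξ b a lam c :=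
  lt_of_lt_of_le one_pos (S1_ge_one c)

/-- The transported mass `t(c,c')/S(c)`. -/
noncomputable def rr (T : SimpleGraph V) (C : SimpleGraph B) (Ξ : V → B) (b : B → ℝ)
    (a : B → B → ℝ) (lam : ℝ) (c c' : B) : ℝ :=
  tt T C Ξ b a lam c c' / S1 T C Ξ b a lam c

theorem rr_nonneg (c c' : B) : 0 ≤ rr T C Ξ b a lam c c' :=
  div_nonneg (tt_nonneg _ _) (S1_pos T C Ξ b a lam c).le

theorem rr_a (hc : IsUnivCover T C Ξ) (ha : ∀ c c', a c c' = a c' c)
    (hpos : ∀ c c', C.Adj c c' → 0 < a c c') {c c' : B} (hcc : C.Adj c c')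
    (h1 : c ∈ XX T C Ξ b a lam) (h2 : c' ∈ XX T C Ξ b a lam) :
    1 ≤ rr T C Ξ b a lam c c' + rr T C Ξ b a lam c' c := by
  have k := case_a hc ha hpos hcc h1 h2
  unfold rr
  rw [S1_eq hcc, S1_eq hcc.symm]
  have p1 := SS_ge_one (T := T) (C := C) (Ξ := Ξ) (b := b) (a := a) (lam := lam) c' c
  have p2 := SS_ge_one (T := T) (C := C) (Ξ := Ξ) (b := b) (a := a) (lam := lam) c c'
  have p3 := tt_nonneg (T := T) (C := C) (Ξ := Ξ) (b := b) (a := a) (lam := lam) c' c
  have p4 := tt_nonneg (T := T) (C := C) (Ξ := Ξ) (b := b) (a := a) (lam := lam) c c'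
  set s := SS T C Ξ b a lam c c'
  set s' := SS T C Ξ b a lam c' c
  set t := tt T C Ξ b a lam c c'
  set t' := tt T C Ξ b a lam c' c
  rw [div_add_div _ _ (by positivity) (by positivity), le_div_iff₀ (by positivity)]
  nlinarith

open Classical in
theorem case_b (hc : IsUnivCover T C Ξ)
    (hpos : ∀ c c', C.Adj c c' → 0 < a c c') {c' : B} (hc' : c' ∉ XX T C Ξ b a lam) {c : B}
    (hcc : C.Adj c' c) (hcX : c ∈ XX T C Ξ b a lam) :
    a c' c ^ 2 ≤ (∑ d ∈ ((N C c').filter (· ∈ XX T C Ξ b a lam)).erase c,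
        a c' d ^ 2 / SS T C Ξ b a lam d c') * tt T C Ξ b a lam c c' := by
  set P := ((N C c').filter (· ∈ XX T C Ξ b a lam)).erase c with hP
  set W := ∑ d ∈ P, a c' d ^ 2 / SS T C Ξ b a lam d c' with hW
  have sp : ∀ d, 0 < SS T C Ξ b a lam d c' := fun d =>
    lt_of_lt_of_le one_pos (SS_ge_one d c')
  have key : ∀ e ∈ enSet T C Ξ b a lam c c', a c' c ^ 2 ≤ W * e := by
    rintro e ⟨v, x, hv, hx, hvx, rfl⟩
    have hcx : C.Adj (Ξ x) c' := by rw [hx]; exact hcc.symm
    have hxz := nb_adj hc hcx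
    have hz : Ξ (nb T Ξ x c') = c' := ty_nb hc hcx
    set z := nb T Ξ x c' with hzdef
    have hzx : nb T Ξ z c = x := nb_eq' hc hxz.symm hx
    have hvz : v z = 0 := by
      by_contra hne
      exact hc' ⟨v, z, hv, hz, hne⟩
    have h0 : ∀ d, C.Adj c' d → d ∉ XX T C Ξ b a lam → v (nb T Ξ z d) = 0 := by
      intro d hd hdX
      by_contra hne
      exact hdX ⟨v, _, hv, ty_nb hc (by rw [hz]; exact hd), hne⟩
    -- equation at z
    have heq := hv.eq z
    rw [hz, hvz, mul_zero, mul_zero, zero_add] at heq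
    have e1 : ∑ d ∈ N C c', a c' d * v (nb T Ξ z d) =
        ∑ d ∈ (N C c').filter (· ∈ XX T C Ξ b a lam), a c' d * v (nb T Ξ z d) := by
      rw [Finset.sum_filter]
      refine Finset.sum_congr rfl fun d hd => ?_
      split_ifs with h
      · rfl
      · rw [h0 d (mem_N.1 hd) h, mul_zero]
    have hcm : c ∈ (N C c').filter (· ∈ XX T C Ξ b a lam) := by
      rw [Finset.mem_filter, mem_N]
      exact ⟨hcc, hcX⟩
    rw [e1, ← Finset.sum_erase_add _ _ hcm, hzx, hvx, mul_one, ← hP] at heq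
    have e2 : a c' c ^ 2 = (∑ d ∈ P, a c' d * v (nb T Ξ z d)) ^ 2 := by
      have : ∑ d ∈ P, a c' d * v (nb T Ξ z d) = - a c' c := by linarith
      rw [this]; ring
    -- Cauchy-Schwarz
    have cs := Finset.sum_mul_sq_le_sq_mul_sq P
      (fun d => a c' d / Real.sqrt (SS T C Ξ b a lam d c'))
      (fun d => Real.sqrt (SS T C Ξ b a lam d c') * v (nb T Ξ z d))
    have e3 : ∑ d ∈ P, a c' d / Real.sqrt (SS T C Ξ b a lam d c') *
        (Real.sqrt (SS T C Ξ b a lam d c') * v (nb T Ξ z d)) =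
        ∑ d ∈ P, a c' d * v (nb T Ξ z d) := by
      refine Finset.sum_congr rfl fun d _ => ?_
      have := (Real.sqrt_pos.2 (sp d)).ne'
      field_simp
    have e4 : ∑ d ∈ P, (a c' d / Real.sqrt (SS T C Ξ b a lam d c')) ^ 2 = W := by
      refine Finset.sum_congr rfl fun d _ => ?_
      rw [div_pow, Real.sq_sqrt (sp d).le]
    have e5 : ∑ d ∈ P, (Real.sqrt (SS T C Ξ b a lam d c') * v (nb T Ξ z d)) ^ 2 =
        ∑ d ∈ P, v (nb T Ξ z d) ^ 2 * SS T C Ξ b a lam d c' := by
      refine Finset.sum_congr rfl fun d _ => ?_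
      rw [mul_pow, Real.sq_sqrt (sp d).le]
      ring
    rw [e3, e4, e5] at cs
    have hW0 : 0 ≤ W := Finset.sum_nonneg fun d _ => div_nonneg (sq_nonneg _) (sp d).le
    -- energy
    have e6 : ∑ d ∈ P, v (nb T Ξ z d) ^ 2 * SS T C Ξ b a lam d c' ≤ en T v x z := by
      have h1 := en_ge hc hv.sq hxz
      rw [hvz, hz, hx] at h1
      have hsub : P ⊆ (N C c').erase c := by
        rw [hP]
        exact Finset.erase_subset_erase _ (Finset.filter_subset _ _)
      have h2 : ∑ d ∈ P, v (nb T Ξ z d) ^ 2 * SS T C Ξ b a lam d c' ≤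
          ∑ d ∈ (N C c').erase c, en T v z (nb T Ξ z d) := by
        calc ∑ d ∈ P, v (nb T Ξ z d) ^ 2 * SS T C Ξ b a lam d c' ≤
            ∑ d ∈ P, en T v z (nb T Ξ z d) := by
              refine Finset.sum_le_sum fun d hd => ?_
              rw [hP, Finset.mem_erase, Finset.mem_filter, mem_N] at hd
              have hzd : C.Adj (Ξ z) d := by rw [hz]; exact hd.2.1
              have := SS_le hc hv (nb_adj hc hzd)
              rw [ty_nb hc hzd, hz] at this
              exact this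
          _ ≤ _ := Finset.sum_le_sum_of_subset_of_nonneg hsub
              fun d _ _ => en_nonneg _ _ _
      have h3 : (0 : ℝ) ^ 2 = 0 := by norm_num
      rw [h3, zero_add] at h1
      exact h2.trans h1
    rw [e2]
    exact cs.trans (mul_le_mul_of_nonneg_left e6 hW0)
  have hne := enSet_nonempty hc hcX c'
  have hap : 0 < a c' c ^ 2 := by
    have := hpos _ _ hcc
    positivity
  have hW0 : 0 ≤ W := Finset.sum_nonneg fun d _ => div_nonneg (sq_nonneg _) (sp d).le
  have hWp : 0 < W := by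
    rcases hW0.eq_or_lt with h | h
    · exfalso
      obtain ⟨e, he⟩ := hne
      have := key e he
      rw [← h, zero_mul] at this
      linarith
    · exact h
  have : a c' c ^ 2 / W ≤ tt T C Ξ b a lam c c' := by
    refine le_csInf hne fun e he => ?_
    rw [div_le_iff₀ hWp]
    have := key e he
    linarith
  rw [div_le_iff₀ hWp] at this
  linarith

open Classical in
theorem rr_b (hc : IsUnivCover T C Ξ) (ha : ∀ c c', a c c' = a c' c)
    (hpos : ∀ c c', C.Adj c c' → 0 < a c c') {c' : B} (hc' : c' ∉ XX T C Ξ b a lam) {c0 : B}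
    (hcc : C.Adj c' c0) (hcX : c0 ∈ XX T C Ξ b a lam) :
    1 ≤ ∑ c ∈ (N C c').filter (· ∈ XX T C Ξ b a lam), rr T C Ξ b a lam c c' := by
  set P := (N C c').filter (· ∈ XX T C Ξ b a lam) with hP
  set q : B → ℝ := fun d => a c' d ^ 2 / SS T C Ξ b a lam d c' with hq
  have sp : ∀ d, 0 < SS T C Ξ b a lam d c' := fun d =>
    lt_of_lt_of_le one_pos (SS_ge_one d c')
  have q0 : ∀ d ∈ P, 0 < q d := by
    intro d hd
    rw [hP, Finset.mem_filter, mem_N] at hd
    have := hpos _ _ hd.1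
    have := sp d
    simp only [hq]
    positivity
  set Q := ∑ d ∈ P, q d with hQ
  have hc0 : c0 ∈ P := by
    rw [hP, Finset.mem_filter, mem_N]
    exact ⟨hcc, hcX⟩
  have hQp : 0 < Q := Finset.sum_pos q0 ⟨c0, hc0⟩
  have main : ∀ c ∈ P, q c / Q ≤ rr T C Ξ b a lam c c' := by
    intro c hcP
    have hcP' := hcP
    rw [hP, Finset.mem_filter, mem_N] at hcP'
    have k := case_b hc hpos hc' hcP'.1 hcP'.2
    have e1 : ∑ d ∈ P.erase c, a c' d ^ 2 / SS T C Ξ b a lam d c' = Q - q c := by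
      rw [hQ, ← Finset.sum_erase_add _ _ hcP]
      simp only [hq]
      ring
    rw [← hP, e1] at k
    have e2 : a c' c ^ 2 = q c * SS T C Ξ b a lam c c' := by
      simp only [hq]
      have := (sp c).ne'
      field_simp
    rw [e2] at k
    unfold rr
    rw [S1_eq hcP'.1.symm]
    have p4 := tt_nonneg (T := T) (C := C) (Ξ := Ξ) (b := b) (a := a) (lam := lam) c c'
    have p5 := sp c
    rw [div_le_div_iff₀ hQp (by linarith)]
    nlinarith
  calc (1 : ℝ) = ∑ c ∈ P, q c / Q := by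
        rw [← Finset.sum_div, div_self hQp.ne']
    _ ≤ _ := Finset.sum_le_sum main

open Classical in
/-- **The index inequality**: for a universal cover of a finite graph, the set `X` of base
vertices above which some eigenvector is nonzero satisfies `#X > q(X) + #∂X`, unless empty. -/
theorem index_ineq (hc : IsUnivCover T C Ξ) (ha : ∀ c c', a c c' = a c' c)
    (hpos : ∀ c c', C.Adj c c' → 0 < a c c') {c0 : B} (h0 : c0 ∈ XX T C Ξ b a lam) :
    (∑ c, ∑ c', if C.Adj c c' ∧ c ∈ XX T C Ξ b a lam ∧ c' ∈ XX T C Ξ b a lam then (1 : ℝ) else 0)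
      + 2 * (∑ c', if c' ∉ XX T C Ξ b a lam ∧ ∃ c ∈ XX T C Ξ b a lam, C.Adj c' c
          then (1 : ℝ) else 0)
      < 2 * ∑ c, if c ∈ XX T C Ξ b a lam then (1 : ℝ) else 0 := by
  set X := XX T C Ξ b a lam with hX
  set r := rr T C Ξ b a lam with hr
  -- total mass
  have m1 : ∀ c ∈ X, ∑ c' ∈ N C c, r c c' < 1 := by
    intro c _
    simp only [hr, rr]
    rw [← Finset.sum_div, div_lt_one (S1_pos T C Ξ b a lam c)]
    unfold S1
    linarith
  have m2 : ∑ c, (if c ∈ X then ∑ c' ∈ N C c, r c c' else 0) <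
      ∑ c, if c ∈ X then (1 : ℝ) else 0 := by
    refine Finset.sum_lt_sum (fun c _ => ?_) ⟨c0, Finset.mem_univ _, ?_⟩
    · split_ifs with h
      · exact (m1 c h).le
      · exact le_rfl
    · rw [if_pos h0, if_pos h0]
      exact m1 c0 h0
  have m3 : ∑ c, (if c ∈ X then ∑ c' ∈ N C c, r c c' else 0) =
      (∑ c, ∑ c', if C.Adj c c' ∧ c ∈ X ∧ c' ∈ X then r c c' else 0) +
      ∑ c, ∑ c', if C.Adj c c' ∧ c ∈ X ∧ c' ∉ X then r c c' else 0 := by
    rw [← Finset.sum_add_distrib]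
    refine Finset.sum_congr rfl fun c _ => ?_
    rw [← Finset.sum_add_distrib]
    have : ∑ c' ∈ N C c, r c c' = ∑ c', if C.Adj c c' then r c c' else 0 := by
      unfold N
      rw [Finset.sum_filter]
    rw [this]
    by_cases h : c ∈ X
    · rw [if_pos h]
      refine Finset.sum_congr rfl fun c' _ => ?_
      by_cases h1 : C.Adj c c' <;> by_cases h2 : c' ∈ X <;> simp [h, h1, h2]
    · rw [if_neg h]
      symm
      apply Finset.sum_eq_zero
      intro c' _
      simp [h]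
  have m4 : (∑ c, ∑ c', if C.Adj c c' ∧ c ∈ X ∧ c' ∈ X then (1 : ℝ) else 0) ≤
      2 * ∑ c, ∑ c', if C.Adj c c' ∧ c ∈ X ∧ c' ∈ X then r c c' else 0 := by
    have e : (∑ c, ∑ c', if C.Adj c c' ∧ c ∈ X ∧ c' ∈ X then r c c' else 0) =
        ∑ c, ∑ c', if C.Adj c c' ∧ c ∈ X ∧ c' ∈ X then r c' c else 0 := by
      rw [Finset.sum_comm]
      refine Finset.sum_congr rfl fun c _ => Finset.sum_congr rfl fun c' _ => ?_
      have : (C.Adj c' c ∧ c' ∈ X ∧ c ∈ X) ↔ (C.Adj c c' ∧ c ∈ X ∧ c' ∈ X) := by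
        rw [C.adj_comm]; tauto
      simp only [this]
    rw [two_mul]
    nth_rewrite 2 [e]
    rw [← Finset.sum_add_distrib]
    refine Finset.sum_le_sum fun c _ => ?_
    rw [← Finset.sum_add_distrib]
    refine Finset.sum_le_sum fun c' _ => ?_
    split_ifs with h
    · exact rr_a hc ha hpos h.1 h.2.1 h.2.2
    · norm_num
  have m5 : (∑ c', if c' ∉ X ∧ ∃ c ∈ X, C.Adj c' c then (1 : ℝ) else 0) ≤
      ∑ c, ∑ c', if C.Adj c c' ∧ c ∈ X ∧ c' ∉ X then r c c' else 0 := by
    rw [Finset.sum_comm]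
    refine Finset.sum_le_sum fun c' _ => ?_
    split_ifs with h
    · obtain ⟨h1, c1, h2, h3⟩ := h
      refine (rr_b hc ha hpos h1 h3 h2).trans (le_of_eq ?_)
      unfold N
      rw [Finset.filter_filter, Finset.sum_filter]
      refine Finset.sum_congr rfl fun c _ => ?_
      have : (C.Adj c' c ∧ c ∈ X) ↔ (C.Adj c c' ∧ c ∈ X ∧ c' ∉ X) := by
        rw [C.adj_comm]; tauto
      simp only [← hX, this]
      rfl
    · refine Finset.sum_nonneg fun c _ => ?_
      split_ifs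
      · exact rr_nonneg _ _
      · exact le_rfl
  rw [m3] at m2
  linarith

end X107.JT
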