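import Pool.Agent.X107.JT.JT5

/-!
Counting for `K_{r,g}`, complex eigenvectors.
-/

namespace X107.JT

open SimpleGraph

variable {V : Type*} {T : SimpleGraph V} {r g : ℕ} {Ξ : V → Fin r ⊕ Fin g}

theorem count_real {r g R G : ℝ} (hr : 3 ≤ r) (hg : 2 ≤ g) (hR1 : 1 ≤ R) (hR2 : R ≤ r)
    (hG1 : 1 ≤ G) (hG2 : G ≤ g) : 2 * (R + G) ≤ R * G + r + g := by
  by_cases h : 2 ≤ G
  · nlinarith [mul_nonneg (sub_nonneg.2 hR1) (sub_nonneg.2 h)]
  · push Not at h
    nlinarith [mul_nonneg (sub_nonneg.2 hR2) (sub_nonneg.2 h.le),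
      mul_nonneg (show (0 : ℝ) ≤ r - 2 by linarith) (sub_nonneg.2 hG1)]

theorem krg_count (hc : IsUnivCover T (completeBipartiteGraph (Fin r) (Fin g)) Ξ)
    (hg : 2 ≤ g) (hrg : g < r) {b : Fin r ⊕ Fin g → ℝ}
    {a : Fin r ⊕ Fin g → Fin r ⊕ Fin g → ℝ} {lam : ℝ} (ha : ∀ c c', a c c' = a c' c)
    (hpos : ∀ c c', (completeBipartiteGraph (Fin r) (Fin g)).Adj c c' → 0 < a c c') :
    (∀ j, Sum.inr j ∉ XX T (completeBipartiteGraph (Fin r) (Fin g)) Ξ b a lam) ∧
    ∀ c, c ∈ XX T (completeBipartiteGraph (Fin r) (Fin g)) Ξ b a lam →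
      ∃ s : Finset (Fin r), g + 1 ≤ s.card ∧
        ∀ i ∈ s, Sum.inl i ∈ XX T (completeBipartiteGraph (Fin r) (Fin g)) Ξ b a lam := by
  classical
  set X := XX T (completeBipartiteGraph (Fin r) (Fin g)) Ξ b a lam with hX
  set P : Finset (Fin r) := Finset.univ.filter (fun i => Sum.inl i ∈ X) with hP
  set Q : Finset (Fin g) := Finset.univ.filter (fun j => Sum.inr j ∈ X) with hQ
  have hPr : P.card ≤ r := by
    have := Finset.card_le_univ P
    simpa using this
  have hQg : Q.card ≤ g := by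
    have := Finset.card_le_univ Q
    simpa using this
  have cP : ∑ i : Fin r, (if Sum.inl i ∈ X then (1 : ℝ) else 0) = P.card := by
    rw [hP, Finset.card_filter]
    push_cast
    rfl
  have cQ : ∑ j : Fin g, (if Sum.inr j ∈ X then (1 : ℝ) else 0) = Q.card := by
    rw [hQ, Finset.card_filter]
    push_cast
    rfl
  have cPQ : ∑ i : Fin r, ∑ j : Fin g, (if Sum.inl i ∈ X ∧ Sum.inr j ∈ X then (1 : ℝ) else 0) =
      P.card * Q.card := by
    rw [← cP, ← cQ, Finset.sum_mul_sum]
    refine Finset.sum_congr rfl fun i _ => Finset.sum_congr rfl fun j _ => ?_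
    by_cases h1 : Sum.inl i ∈ X <;> by_cases h2 : Sum.inr j ∈ X <;> simp [h1, h2]
  have cQP : ∑ j : Fin g, ∑ i : Fin r, (if Sum.inr j ∈ X ∧ Sum.inl i ∈ X then (1 : ℝ) else 0) =
      P.card * Q.card := by
    rw [Finset.sum_comm, ← cPQ]
    refine Finset.sum_congr rfl fun i _ => Finset.sum_congr rfl fun j _ => ?_
    simp only [and_comm]
  have cP' : ∑ i : Fin r, (if Sum.inl i ∉ X then (1 : ℝ) else 0) = r - P.card := by
    have : ∑ i : Fin r, ((if Sum.inl i ∉ X then (1 : ℝ) else 0) +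
        (if Sum.inl i ∈ X then (1 : ℝ) else 0)) = r := by
      have e : ∀ i : Fin r, ((if Sum.inl i ∉ X then (1 : ℝ) else 0) +
        (if Sum.inl i ∈ X then (1 : ℝ) else 0)) = 1 := by
        intro i
        by_cases h1 : Sum.inl i ∈ X <;> simp [h1]
      rw [Finset.sum_congr rfl fun i _ => e i]
      simp
    rw [Finset.sum_add_distrib, cP] at this
    linarith
  have cQ' : ∑ j : Fin g, (if Sum.inr j ∉ X then (1 : ℝ) else 0) = g - Q.card := by
    have : ∑ j : Fin g, ((if Sum.inr j ∉ X then (1 : ℝ) else 0) +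
        (if Sum.inr j ∈ X then (1 : ℝ) else 0)) = g := by
      have e : ∀ j : Fin g, ((if Sum.inr j ∉ X then (1 : ℝ) else 0) +
        (if Sum.inr j ∈ X then (1 : ℝ) else 0)) = 1 := by
        intro i
        by_cases h1 : Sum.inr i ∈ X <;> simp [h1]
      rw [Finset.sum_congr rfl fun i _ => e i]
      simp
    rw [Finset.sum_add_distrib, cQ] at this
    linarith
  -- general form of the inequality
  have main : ∀ c0 ∈ X, (2 : ℝ) * (P.card * Q.card) +
      2 * ((∑ i : Fin r, if Sum.inl i ∉ X ∧ (∃ j, Sum.inr j ∈ X) then (1 : ℝ) else 0) +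
        ∑ j : Fin g, if Sum.inr j ∉ X ∧ (∃ i, Sum.inl i ∈ X) then (1 : ℝ) else 0) <
      2 * (P.card + Q.card) := by
    intro c0 h0
    have k := index_ineq hc ha hpos h0
    rw [← hX] at k
    simp only [Fintype.sum_sum_type, completeBipartiteGraph_adj, Sum.isLeft_inl, Sum.isRight_inl,
      Sum.isLeft_inr, Sum.isRight_inr, Sum.exists, and_true, true_and, and_false, false_and,
      or_false, false_or, Bool.false_eq_true, if_false, Finset.sum_const_zero, add_zero,
      zero_add, exists_false, or_self] at k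
    rw [cPQ, cQP, cP, cQ] at k
    linarith
  have hge : ∀ i, Sum.inl i ∈ X → 1 ≤ P.card := by
    intro i hi
    rw [Nat.one_le_iff_ne_zero, Finset.card_ne_zero]
    exact ⟨i, by rw [hP, Finset.mem_filter]; exact ⟨Finset.mem_univ _, hi⟩⟩
  have hgeQ : ∀ i, Sum.inr i ∈ X → 1 ≤ Q.card := by
    intro i hi
    rw [Nat.one_le_iff_ne_zero, Finset.card_ne_zero]
    exact ⟨i, by rw [hQ, Finset.mem_filter]; exact ⟨Finset.mem_univ _, hi⟩⟩
  have hr3 : (3 : ℝ) ≤ r := by
    have : 3 ≤ r := by omega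
    exact_mod_cast this
  have hg2 : (2 : ℝ) ≤ g := by exact_mod_cast hg
  have hgreen : ∀ j, Sum.inr j ∉ X := by
    intro j hj
    have k := main _ hj
    by_cases hex : ∃ i, Sum.inl i ∈ X
    · have hex2 : ∃ j, Sum.inr j ∈ X := ⟨j, hj⟩
      simp only [hex, hex2, and_true] at k
      rw [cP', cQ'] at k
      obtain ⟨i, hi⟩ := hex
      have h1 : (1 : ℝ) ≤ P.card := by exact_mod_cast hge i hi
      have h2 : (1 : ℝ) ≤ Q.card := by exact_mod_cast hgeQ j hj
      have h3 : (P.card : ℝ) ≤ r := by exact_mod_cast hPr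
      have h4 : (Q.card : ℝ) ≤ g := by exact_mod_cast hQg
      have := count_real hr3 hg2 h1 h3 h2 h4
      linarith
    · have hex2 : ∃ j, Sum.inr j ∈ X := ⟨j, hj⟩
      simp only [hex, hex2, and_true, and_false, if_false, Finset.sum_const_zero, add_zero] at k
      rw [cP'] at k
      have hP0 : P.card = 0 := by
        rw [Finset.card_eq_zero, hP, Finset.filter_eq_empty_iff]
        intro i _ hi
        exact hex ⟨i, hi⟩
      rw [hP0] at k
      have h4 : (Q.card : ℝ) ≤ g := by exact_mod_cast hQg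
      have h5 : (g : ℝ) < r := by exact_mod_cast hrg
      simp only [Nat.cast_zero, zero_mul, mul_zero, zero_add, sub_zero] at k
      linarith
  refine ⟨hgreen, fun c hcX => ?_⟩
  rcases c with i | j
  · refine ⟨P, ?_, ?_⟩
    · have k := main _ hcX
      have hex : ∃ i, Sum.inl i ∈ X := ⟨i, hcX⟩
      have hex2 : ¬ ∃ j, Sum.inr j ∈ X := by
        rintro ⟨j, hj⟩
        exact hgreen j hj
      simp only [hex, hex2, and_true, and_false, if_false, Finset.sum_const_zero, zero_add] at k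
      rw [cQ'] at k
      have hQ0 : Q.card = 0 := by
        rw [Finset.card_eq_zero, hQ, Finset.filter_eq_empty_iff]
        intro i _ hi
        exact hex2 ⟨i, hi⟩
      rw [hQ0] at k
      simp only [Nat.cast_zero, mul_zero, zero_add, sub_zero, add_zero] at k
      have : (g : ℝ) < P.card := by linarith
      have : g < P.card := by exact_mod_cast this
      omega
    · intro i hi
      rw [hP, Finset.mem_filter] at hi
      exact hi.2
  · exact absurd hcX (hgreen j)

end X107.JT
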