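import Pool.Agent.X107.JT.JT6

/-!
`K_{r,g}`: complex eigenvectors, vanishing at green vertices, and the values of `b`.
-/

namespace X107.JT

open SimpleGraph

variable {V : Type*} {T : SimpleGraph V} {r g : ℕ} {Ξ : V → Fin r ⊕ Fin g}

/-- The weight of an edge of `K_{r,g}`. -/
def wt (a : Fin r → Fin g → ℝ) : Fin r ⊕ Fin g → Fin r ⊕ Fin g → ℝ
  | .inl i, .inr j => a i j
  | .inr j, .inl i => a i j
  | _, _ => 0

theorem wt_symm (a : Fin r → Fin g → ℝ) (c c' : Fin r ⊕ Fin g) : wt a c c' = wt a c' c := by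
  rcases c with i | j <;> rcases c' with i' | j' <;> rfl

theorem wt_pos {a : Fin r → Fin g → ℝ} (ha : ∀ i j, 0 < a i j) (c c' : Fin r ⊕ Fin g)
    (h : (completeBipartiteGraph (Fin r) (Fin g)).Adj c c') : 0 < wt a c c' := by
  rcases c with i | j <;> rcases c' with i' | j'
  · simp at h
  · exact ha i j'
  · exact ha i' j
  · simp at h

theorem value_of_b (hc : IsUnivCover T (completeBipartiteGraph (Fin r) (Fin g)) Ξ)
    {b : Fin r ⊕ Fin g → ℝ} {a : Fin r → Fin g → ℝ} {lam : ℝ}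
    (hgreen : ∀ j, Sum.inr j ∉ XX T (completeBipartiteGraph (Fin r) (Fin g)) Ξ b (wt a) lam)
    {i : Fin r} (hi : Sum.inl i ∈ XX T (completeBipartiteGraph (Fin r) (Fin g)) Ξ b (wt a) lam) :
    b (Sum.inl i) = lam := by
  obtain ⟨v, z, hv, hz, hne⟩ := hi
  have heq := hv.eq z
  have h0 : ∑ c ∈ N (completeBipartiteGraph (Fin r) (Fin g)) (Ξ z), wt a (Ξ z) c *
      v (nb T Ξ z c) = 0 := by
    refine Finset.sum_eq_zero fun c hcN => ?_
    rw [mem_N] at hcN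
    have hty := ty_nb hc hcN
    rcases c with i' | j
    · rw [hz] at hcN
      simp at hcN
    · have : v (nb T Ξ z (Sum.inr j)) = 0 := by
        by_contra hne'
        exact hgreen j ⟨v, _, hv, hty, hne'⟩
      rw [this, mul_zero]
  rw [h0, add_zero, hz] at heq
  exact mul_right_cancel₀ hne heq

/-- The two statements in real form. -/
theorem krg_real (hc : IsUnivCover T (completeBipartiteGraph (Fin r) (Fin g)) Ξ)
    (hg : 2 ≤ g) (hrg : g < r) {b : Fin r ⊕ Fin g → ℝ} {a : Fin r → Fin g → ℝ}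
    (ha : ∀ i j, 0 < a i j) {lam : ℝ} {u : V → ℝ}
    (hu : IsEig T (completeBipartiteGraph (Fin r) (Fin g)) Ξ b (wt a) lam u) :
    (∀ x, (Ξ x).isRight → u x = 0) ∧
    ((∃ x, u x ≠ 0) → g + 1 ≤ (Finset.univ.filter (fun i => b (Sum.inl i) = lam)).card) := by
  obtain ⟨h1, h2⟩ := krg_count (lam := lam) (b := b) hc hg hrg (wt_symm a) (wt_pos ha)
  refine ⟨fun x hx => ?_, ?_⟩
  · by_contra hne
    obtain ⟨j, hj⟩ := Sum.isRight_iff.1 hx
    exact h1 j ⟨u, x, hu, hj, hne⟩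
  · rintro ⟨x, hx⟩
    obtain ⟨s, hs1, hs2⟩ := h2 (Ξ x) ⟨u, x, hu, rfl, hx⟩
    refine hs1.trans (Finset.card_le_card fun i hi => ?_)
    rw [Finset.mem_filter]
    exact ⟨Finset.mem_univ _, value_of_b hc h1 (hs2 i hi)⟩

/-- The finite sum over base neighbours as a sum over neighbours in the tree. -/
theorem finsum_nb {B : Type*} [Fintype B] {C : SimpleGraph B} {Ξ : V → B}
    (hc : IsUnivCover T C Ξ) (w : B → B → ℝ) (u : V → ℂ) (x : V) :
    ∑ᶠ y ∈ T.neighborSet x, (w (Ξ x) (Ξ y) : ℂ) * u y =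
      ∑ c ∈ N C (Ξ x), (w (Ξ x) c : ℂ) * u (nb T Ξ x c) := by
  have h1 : ∑ᶠ y ∈ T.neighborSet x, (w (Ξ x) (Ξ y) : ℂ) * u y =
      ∑ᶠ c ∈ C.neighborSet (Ξ x), (w (Ξ x) c : ℂ) * u (nb T Ξ x c) := by
    apply finsum_mem_eq_of_bijOn Ξ (hc.bij x)
    intro y hy
    rw [nb_eq hc hy]
  rw [h1]
  have h2 : C.neighborSet (Ξ x) = ((N C (Ξ x) : Finset B) : Set B) := by
    ext c
    rw [Finset.mem_coe, mem_N]
    rfl
  rw [h2, finsum_mem_coe_finset]

theorem re_im_isEig {B : Type*} [Fintype B] {C : SimpleGraph B} {Ξ : V → B}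
    (hc : IsUnivCover T C Ξ) {b : B → ℝ} {w : B → B → ℝ} {lam : ℝ} {u : V → ℂ}
    (hs : Summable fun x => ‖u x‖ ^ 2)
    (he : ∀ x, (b (Ξ x) : ℂ) * u x + ∑ᶠ y ∈ T.neighborSet x, (w (Ξ x) (Ξ y) : ℂ) * u y =
      lam * u x) :
    IsEig T C Ξ b w lam (fun x => (u x).re) ∧ IsEig T C Ξ b w lam (fun x => (u x).im) := by
  refine ⟨⟨?_, fun x => ?_⟩, ⟨?_, fun x => ?_⟩⟩
  · refine Summable.of_nonneg_of_le (fun x => sq_nonneg _) (fun x => ?_) hs
    rw [← sq_abs]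
    exact pow_le_pow_left₀ (abs_nonneg _) (Complex.abs_re_le_norm _) 2
  · have h := he x
    rw [finsum_nb hc] at h
    have h2 := congrArg Complex.re h
    simpa using h2
  · refine Summable.of_nonneg_of_le (fun x => sq_nonneg _) (fun x => ?_) hs
    rw [← sq_abs]
    exact pow_le_pow_left₀ (abs_nonneg _) (Complex.abs_im_le_norm _) 2
  · have h := he x
    rw [finsum_nb hc] at h
    have h2 := congrArg Complex.im h
    simpa using h2

/-- The two statements in complex form. -/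
theorem krg_complex (hc : IsUnivCover T (completeBipartiteGraph (Fin r) (Fin g)) Ξ)
    (hg : 2 ≤ g) (hrg : g < r) {b : Fin r ⊕ Fin g → ℝ} {a : Fin r → Fin g → ℝ}
    (ha : ∀ i j, 0 < a i j) {lam : ℝ} {u : V → ℂ}
    (hs : Summable fun x => ‖u x‖ ^ 2)
    (he : ∀ x, (b (Ξ x) : ℂ) * u x + ∑ᶠ y ∈ T.neighborSet x, (wt a (Ξ x) (Ξ y) : ℂ) * u y =
      lam * u x) :
    (∀ x, (Ξ x).isRight → u x = 0) ∧
    (u ≠ 0 → g + 1 ≤ (Finset.univ.filter (fun i => b (Sum.inl i) = lam)).card) := by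
  obtain ⟨h1, h2⟩ := re_im_isEig hc hs he
  obtain ⟨r1, r2⟩ := krg_real hc hg hrg ha h1
  obtain ⟨i1, i2⟩ := krg_real hc hg hrg ha h2
  refine ⟨fun x hx => Complex.ext (r1 x hx) (i1 x hx), fun hne => ?_⟩
  obtain ⟨x, hx⟩ := Function.ne_iff.1 hne
  by_cases h : (u x).re = 0
  · refine i2 ⟨x, fun h' => hx (Complex.ext h h')⟩
  · exact r2 ⟨x, h⟩

end X107.JT
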