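import Pool.Agent.X107.JT.JT7

/-!
The recursion for the minimal energies in `K_{r,g}` and its boundedness.
-/

namespace X107.JT

variable {r g : ℕ}

/-- Minimal energies of depth `n`. -/
noncomputable def sN (A : Fin r → Fin g → ℝ) (X : Finset (Fin r)) : ℕ → Fin r → Fin g → ℝ
  | 0 => fun _ _ => 1
  | n + 1 => fun i j => 1 + ∑ j' ∈ Finset.univ.erase j,
      A i j' ^ 2 / ∑ d ∈ X.erase i, A d j' ^ 2 / sN A X n d j'

/-- Transferred energies of depth `n`. -/
noncomputable def tN (A : Fin r → Fin g → ℝ) (X : Finset (Fin r)) (n : ℕ) (i : Fin r)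
    (j : Fin g) : ℝ :=
  A i j ^ 2 / ∑ d ∈ X.erase i, A d j ^ 2 / sN A X n d j

variable {A : Fin r → Fin g → ℝ} {X : Finset (Fin r)}

theorem sN_succ (n : ℕ) (i : Fin r) (j : Fin g) :
    sN A X (n + 1) i j = 1 + ∑ j' ∈ Finset.univ.erase j, tN A X n i j' := rfl

theorem sN_ge (A : Fin r → Fin g → ℝ) (X : Finset (Fin r)) (n : ℕ) :
    ∀ i j, 1 ≤ sN A X n i j := by
  induction n with
  | zero => intro i j; exact le_rfl
  | succ n ih =>
    intro i j
    rw [sN_succ]
    have : 0 ≤ ∑ j' ∈ Finset.univ.erase j, tN A X n i j' := by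
      refine Finset.sum_nonneg fun j' _ => ?_
      unfold tN
      refine div_nonneg (sq_nonneg _) (Finset.sum_nonneg fun d _ => ?_)
      exact div_nonneg (sq_nonneg _) (zero_le_one.trans (ih d j'))
    linarith

theorem sN_pos (A : Fin r → Fin g → ℝ) (X : Finset (Fin r)) (n : ℕ) (i : Fin r) (j : Fin g) :
    0 < sN A X n i j := lt_of_lt_of_le one_pos (sN_ge A X n i j)

theorem den_pos (hA : ∀ i j, 0 < A i j) (hX : 2 ≤ X.card) (n : ℕ) (i : Fin r) (j : Fin g) :
    0 < ∑ d ∈ X.erase i, A d j ^ 2 / sN A X n d j := by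
  refine Finset.sum_pos (fun d _ => ?_) ?_
  · have := sN_pos A X n d j
    have := hA d j
    positivity
  · rw [← Finset.card_pos]
    have := Finset.pred_card_le_card_erase (s := X) (a := i)
    omega

theorem tN_pos (hA : ∀ i j, 0 < A i j) (hX : 2 ≤ X.card) (n : ℕ) (i : Fin r) (j : Fin g) :
    0 < tN A X n i j := by
  unfold tN
  have := den_pos hA hX n i j
  have := hA i j
  positivity

theorem tN_mono_of (hA : ∀ i j, 0 < A i j) (hX : 2 ≤ X.card) {n m : ℕ}
    (h : ∀ i j, sN A X n i j ≤ sN A X m i j) (i : Fin r) (j : Fin g) :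
    tN A X n i j ≤ tN A X m i j := by
  unfold tN
  have h1 := den_pos hA hX n i j
  have h2 := den_pos hA hX m i j
  refine div_le_div_of_nonneg_left (sq_nonneg _) h2 ?_
  refine Finset.sum_le_sum fun d _ => ?_
  exact div_le_div_of_nonneg_left (sq_nonneg _) (sN_pos A X n d j) (h d j)

theorem sN_mono (hA : ∀ i j, 0 < A i j) (hX : 2 ≤ X.card) (n : ℕ) :
    ∀ i j, sN A X n i j ≤ sN A X (n + 1) i j := by
  induction n with
  | zero =>
    intro i j
    exact sN_ge A X 1 i j
  | succ n ih =>
    intro i j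
    rw [sN_succ, sN_succ]
    have := Finset.sum_le_sum (s := Finset.univ.erase j)
      (fun j' _ => tN_mono_of hA hX ih i j')
    linarith

theorem tN_mono (hA : ∀ i j, 0 < A i j) (hX : 2 ≤ X.card) (i : Fin r) (j : Fin g) :
    Monotone (fun n => tN A X n i j) :=
  monotone_nat_of_le_succ fun n => tN_mono_of hA hX (sN_mono hA hX n) i j

theorem mass_one (hA : ∀ i j, 0 < A i j) (hX : 2 ≤ X.card) (n : ℕ) (j : Fin g) :
    ∑ i ∈ X, tN A X n i j / (sN A X n i j + tN A X n i j) = 1 := by
  set q : Fin r → ℝ := fun i => A i j ^ 2 / sN A X n i j with hq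
  set Q := ∑ i ∈ X, q i with hQ
  have hq0 : ∀ i, 0 < q i := by
    intro i
    have := sN_pos A X n i j
    have := hA i j
    simp only [hq]
    positivity
  have hQp : 0 < Q := by
    refine Finset.sum_pos (fun i _ => hq0 i) ?_
    rw [← Finset.card_pos]; omega
  have key : ∀ i ∈ X, tN A X n i j / (sN A X n i j + tN A X n i j) = q i / Q := by
    intro i hi
    have e1 : ∑ d ∈ X.erase i, A d j ^ 2 / sN A X n d j = Q - q i := by
      rw [hQ, ← Finset.sum_erase_add _ _ hi]
      simp only [hq]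
      ring
    have hd := den_pos hA hX n i j
    rw [e1] at hd
    unfold tN
    rw [e1]
    have hs := sN_pos A X n i j
    have e2 : A i j ^ 2 = q i * sN A X n i j := by
      simp only [hq]
      field_simp
    rw [e2]
    have hne : (Q - q i) ≠ 0 := hd.ne'
    have h7 : 0 < q i * sN A X n i j / (Q - q i) := div_pos (mul_pos (hq0 i) hs) hd
    rw [div_eq_div_iff (by positivity) hQp.ne']
    field_simp
    ring
  rw [Finset.sum_congr rfl key, ← Finset.sum_div, div_self hQp.ne']

theorem exists_bounded (hA : ∀ i j, 0 < A i j) (hX : g + 1 ≤ X.card) (hX2 : 2 ≤ X.card) :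
    ∃ i ∈ X, ∀ n, 1 + ∑ j, tN A X n i j ≤ X.card := by
  by_contra hcon
  push Not at hcon
  choose! k hk using hcon
  -- take the maximum
  obtain ⟨M, hM⟩ : ∃ M, ∀ i ∈ X, k i ≤ M := ⟨X.sup k, fun i hi => Finset.le_sup hi⟩
  have big : ∀ i ∈ X, (X.card : ℝ) < 1 + ∑ j, tN A X M i j := by
    intro i hi
    refine (hk i hi).trans_le ?_
    have : ∑ j, tN A X (k i) i j ≤ ∑ j, tN A X M i j :=
      Finset.sum_le_sum fun j _ => tN_mono hA hX2 i j (hM i hi)
    linarith
  set S : Fin r → ℝ := fun i => 1 + ∑ j, tN A X M i j with hS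
  have hSp : ∀ i, 0 < S i := by
    intro i
    have : 0 ≤ ∑ j, tN A X M i j := Finset.sum_nonneg fun j _ => (tN_pos hA hX2 M i j).le
    simp only [hS]
    linarith
  have hcard : (0 : ℝ) < X.card := by
    have : 0 < X.card := by omega
    exact_mod_cast this
  -- total mass at most g
  have m1 : ∑ i ∈ X, ∑ j, tN A X M i j / S i ≤ g := by
    rw [Finset.sum_comm]
    have : ∀ j : Fin g, ∑ i ∈ X, tN A X M i j / S i ≤ 1 := by
      intro j
      rw [← mass_one hA hX2 M j]
      refine Finset.sum_le_sum fun i _ => ?_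
      have h1 := tN_pos hA hX2 M i j
      have h2 := sN_pos A X M i j
      refine div_le_div_of_nonneg_left h1.le (by positivity) ?_
      have h3 := sN_mono hA hX2 M i j
      rw [sN_succ] at h3
      have h4 : S i = 1 + ∑ j' ∈ Finset.univ.erase j, tN A X M i j' + tN A X M i j := by
        simp only [hS]
        rw [← Finset.sum_erase_add _ _ (Finset.mem_univ j)]
        ring
      rw [h4]
      linarith
    calc ∑ j : Fin g, ∑ i ∈ X, tN A X M i j / S i ≤ ∑ j : Fin g, (1 : ℝ) :=
          Finset.sum_le_sum fun j _ => this j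
      _ = g := by simp
  have m2 : ∑ i ∈ X, ∑ j, tN A X M i j / S i = X.card - ∑ i ∈ X, 1 / S i := by
    have : ∀ i ∈ X, ∑ j, tN A X M i j / S i = 1 - 1 / S i := by
      intro i _
      rw [← Finset.sum_div]
      have e : ∑ j, tN A X M i j = S i - 1 := by simp only [hS]; ring
      rw [e, sub_div, div_self (hSp i).ne']
    rw [Finset.sum_congr rfl this, Finset.sum_sub_distrib]
    simp
  have m3 : ∑ i ∈ X, 1 / S i < 1 := by
    have : ∑ i ∈ X, 1 / S i < ∑ i ∈ X, 1 / (X.card : ℝ) := by
      refine Finset.sum_lt_sum_of_nonempty ?_ fun i hi => ?_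
      · rw [← Finset.card_pos]; omega
      · exact div_lt_div_of_pos_left one_pos hcard (big i hi)
    refine this.trans_le (le_of_eq ?_)
    rw [Finset.sum_const, nsmul_eq_mul]
    field_simp
  have h5 : (g : ℝ) + 1 ≤ X.card := by exact_mod_cast hX
  rw [m2] at m1
  linarith

end X107.JT
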