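import Pool.Agent.X107.JT.JT8

/-!
Gluing local solutions on `K_{r,g}`.
-/

namespace X107.JT

open SimpleGraph

variable {V : Type*} {T : SimpleGraph V} {r g : ℕ} {Ξ : V → Fin r ⊕ Fin g}

/-- Local solutions around `y`, in the directions `J`, to depth `2n`. -/
structure Loc (T : SimpleGraph V) (Ξ : V → Fin r ⊕ Fin g) (A : Fin r → Fin g → ℝ)
    (X : Finset (Fin r)) (n : ℕ) (J : Finset (Fin g)) (y : V) (K : ℝ) (w : V → ℝ) : Prop where
  one : w y = 1
  supp : ∀ x, w x ≠ 0 → x = y ∨ ∃ j ∈ J, x ∈ Br T y (nb T Ξ y (Sum.inr j))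
  types : ∀ x, w x ≠ 0 → ∃ i ∈ X, Ξ x = Sum.inl i
  sum : Summable fun x => w x ^ 2
  en : ∑' x, w x ^ 2 ≤ K
  eqn : ∀ j ∈ J, ∀ v ∈ Br T y (nb T Ξ y (Sum.inr j)), ∀ j', Ξ v = Sum.inr j' →
    T.dist v y < 2 * n → ∑ i ∈ X, A i j' * w (nb T Ξ v (Sum.inl i)) = 0

theorem sum_sq_disj {ι : Type*} [DecidableEq ι] (s : Finset ι) (f : ι → ℝ)
    (h : ∀ p ∈ s, ∀ q ∈ s, p ≠ q → f p * f q = 0) :
    (∑ p ∈ s, f p) ^ 2 = ∑ p ∈ s, f p ^ 2 := by
  rw [sq, Finset.sum_mul_sum]
  refine Finset.sum_congr rfl fun p hp => ?_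
  rw [Finset.sum_eq_single p]
  · ring
  · intro q hq hne
    exact h p hp q hq hne.symm
  · intro h'
    exact absurd hp h'

theorem red_of_adj_green (hc : IsUnivCover T (completeBipartiteGraph (Fin r) (Fin g)) Ξ)
    {z p : V} {j : Fin g} (h : T.Adj z p) (hz : Ξ z = Sum.inr j) : ∃ d, Ξ p = Sum.inl d := by
  have := adj_base hc h
  rw [hz] at this
  rcases hp : Ξ p with d | d
  · exact ⟨d, rfl⟩
  · rw [hp] at this
    simp at this

theorem green_of_adj_red (hc : IsUnivCover T (completeBipartiteGraph (Fin r) (Fin g)) Ξ)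
    {z p : V} {j : Fin r} (h : T.Adj z p) (hz : Ξ z = Sum.inl j) : ∃ d, Ξ p = Sum.inr d := by
  have := adj_base hc h
  rw [hz] at this
  rcases hp : Ξ p with d | d
  · rw [hp] at this
    simp at this
  · exact ⟨d, rfl⟩

theorem glue (hc : IsUnivCover T (completeBipartiteGraph (Fin r) (Fin g)) Ξ)
    {A : Fin r → Fin g → ℝ} {X : Finset (Fin r)} (hA : ∀ i j, 0 < A i j) (hX2 : 2 ≤ X.card)
    {n : ℕ}
    (hW : ∀ y i j, Ξ y = Sum.inl i → i ∈ X →
      ∃ w, Loc T Ξ A X n (Finset.univ.erase j) y (sN A X n i j) w)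
    {y : V} {i : Fin r} (J : Finset (Fin g)) (hy : Ξ y = Sum.inl i) (hi : i ∈ X) :
    ∃ w, Loc T Ξ A X (n + 1) J y (1 + ∑ j ∈ J, tN A X n i j) w := by
  classical
  have hT := hc.tree
  set z : Fin g → V := fun j => nb T Ξ y (Sum.inr j) with hz
  have hyz : ∀ j, T.Adj y (z j) := fun j => nb_adj hc (by rw [hy]; simp)
  have hzt : ∀ j, Ξ (z j) = Sum.inr j := fun j => ty_nb hc (by rw [hy]; simp)
  set y' : Fin g → Fin r → V := fun j d => nb T Ξ (z j) (Sum.inl d) with hy'
  have hzy' : ∀ j d, T.Adj (z j) (y' j d) := fun j d => nb_adj hc (by rw [hzt]; simp)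
  have hy't : ∀ j d, Ξ (y' j d) = Sum.inl d := fun j d => ty_nb hc (by rw [hzt]; simp)
  have hy'i : ∀ j, y' j i = y := fun j => nb_eq' hc (hyz j).symm hy
  have hy'z : ∀ j d, nb T Ξ (y' j d) (Sum.inr j) = z j := fun j d =>
    nb_eq' hc (hzy' j d).symm (hzt j)
  have hchoose : ∀ j d, ∃ w, d ∈ X →
      Loc T Ξ A X n (Finset.univ.erase j) (y' j d) (sN A X n d j) w := by
    intro j d
    by_cases hd : d ∈ X
    · obtain ⟨w, hw⟩ := hW (y' j d) d j (hy't j d) hd
      exact ⟨w, fun _ => hw⟩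
    · exact ⟨0, fun h => absurd h hd⟩
  choose W hWW using hchoose
  set D : Fin g → ℝ := fun j => ∑ d ∈ X.erase i, A d j ^ 2 / sN A X n d j with hDdef
  have hD : ∀ j, 0 < D j := fun j => den_pos hA hX2 n i j
  set κ : Fin g → Fin r → ℝ := fun j d => - A i j * (A d j / sN A X n d j) / D j with hκ
  set s : Finset (Fin g × Fin r) := J ×ˢ X.erase i with hs
  have hmem : ∀ p, p ∈ s ↔ p.1 ∈ J ∧ p.2 ≠ i ∧ p.2 ∈ X := by
    intro p
    rw [hs, Finset.mem_product, Finset.mem_erase]
  set w : V → ℝ := fun x => (if x = y then 1 else 0) + ∑ p ∈ s, κ p.1 p.2 * W p.1 p.2 x with hw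
  -- (F1)
  have F1 : ∀ p ∈ s, ∀ x, W p.1 p.2 x ≠ 0 → x ∈ Br T (z p.1) (y' p.1 p.2) := by
    intro p hp x hx
    rw [hmem] at hp
    rcases (hWW p.1 p.2 hp.2.2).supp x hx with h | ⟨j', hj', h⟩
    · rw [h]; exact self_mem_Br hT (hzy' _ _)
    · have hadj : T.Adj (y' p.1 p.2) (nb T Ξ (y' p.1 p.2) (Sum.inr j')) :=
        nb_adj hc (by rw [hy't]; simp)
      refine Br_sub hT (hzy' _ _) hadj ?_ h
      intro heq
      have h1 : Ξ (nb T Ξ (y' p.1 p.2) (Sum.inr j')) = Sum.inr j' :=
        ty_nb hc (by rw [hy't]; simp)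
      rw [heq, hzt] at h1
      have h2 := Sum.inr_injective h1
      rw [Finset.mem_erase] at hj'
      exact hj'.1 h2.symm
  -- (F2)
  have F2 : ∀ j d, d ≠ i → Br T (z j) (y' j d) ⊆ Br T y (z j) := by
    intro j d hd
    refine Br_sub hT (hyz j) (hzy' j d) ?_
    intro heq
    have h1 := hy't j d
    rw [heq, hy] at h1
    exact hd (Sum.inl_injective h1).symm
  -- (F3)
  have hzinj : ∀ j j', j ≠ j' → z j ≠ z j' := by
    intro j j' hne heq
    have h1 := hzt j
    rw [heq, hzt] at h1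
    exact hne (Sum.inr_injective h1).symm
  have hyinj : ∀ j d d', d ≠ d' → y' j d ≠ y' j d' := by
    intro j d d' hne heq
    have h1 := hy't j d
    rw [heq, hy't] at h1
    exact hne (Sum.inl_injective h1).symm
  have F3 : ∀ p ∈ s, ∀ q ∈ s, p ≠ q → ∀ x, x ∈ Br T (z p.1) (y' p.1 p.2) →
      x ∉ Br T (z q.1) (y' q.1 q.2) := by
    rintro ⟨j, d⟩ hp ⟨j', d'⟩ hq hne x hx hx'
    rw [hmem] at hp hq
    simp only at hp hq hx hx'
    by_cases hj : j = j'
    · subst hj
      have hd : d ≠ d' := fun h => hne (by rw [h])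
      exact Set.disjoint_left.1 (Br_disj hT (hzy' j d) (hzy' j d') (hyinj j d d' hd)) hx hx'
    · exact Set.disjoint_left.1 (Br_disj hT (hyz j) (hyz j') (hzinj j j' hj))
        (F2 j d hp.2.1 hx) (F2 j' d' hq.2.1 hx')
  have ynot : ∀ p ∈ s, y ∉ Br T (z p.1) (y' p.1 p.2) := by
    intro p hp h
    rw [hmem] at hp
    exact left_not_mem_Br (F2 _ _ hp.2.1 h)
  have Wy : ∀ p ∈ s, W p.1 p.2 y = 0 := by
    intro p hp
    by_contra h
    exact ynot p hp (F1 p hp y h)
  -- values of w
  have wy : w y = 1 := by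
    simp only [hw]
    rw [if_pos trivial, Finset.sum_eq_zero, add_zero]
    intro p hp
    rw [Wy p hp, mul_zero]
  have wpiece : ∀ p ∈ s, ∀ x ∈ Br T (z p.1) (y' p.1 p.2), w x = κ p.1 p.2 * W p.1 p.2 x := by
    intro p hp x hx
    have hxy : x ≠ y := by
      rintro rfl
      exact ynot p hp hx
    simp only [hw]
    rw [if_neg hxy, zero_add, Finset.sum_eq_single p]
    · intro q hq hne
      have : W q.1 q.2 x = 0 := by
        by_contra h
        exact F3 q hq p hp hne x (F1 q hq x h) hx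
      rw [this, mul_zero]
    · intro h
      exact absurd hp h
  have woff : ∀ x, w x ≠ 0 → x = y ∨ ∃ p ∈ s, x ∈ Br T (z p.1) (y' p.1 p.2) := by
    intro x hx
    by_contra hcon
    push Not at hcon
    apply hx
    simp only [hw]
    rw [if_neg hcon.1, zero_add]
    refine Finset.sum_eq_zero fun p hp => ?_
    have : W p.1 p.2 x = 0 := by
      by_contra h
      exact hcon.2 p hp (F1 p hp x h)
    rw [this, mul_zero]
  -- squares
  have wsq : ∀ x, w x ^ 2 = (if x = y then 1 else 0) +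
      ∑ p ∈ s, κ p.1 p.2 ^ 2 * W p.1 p.2 x ^ 2 := by
    intro x
    by_cases hxy : x = y
    · rw [hxy, wy, if_pos rfl, Finset.sum_eq_zero]
      · norm_num
      · intro p hp
        rw [Wy p hp]; ring
    · simp only [hw]
      rw [if_neg hxy, zero_add, zero_add, sum_sq_disj]
      · refine Finset.sum_congr rfl fun p _ => ?_
        ring
      · intro p hp q hq hne
        by_cases h1 : W p.1 p.2 x = 0
        · rw [h1]; ring
        · by_cases h2 : W q.1 q.2 x = 0
          · rw [h2]; ring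
          · exact absurd (F1 q hq x h2) (F3 p hp q hq hne x (F1 p hp x h1))
  have s1 : Summable fun x => if x = y then (1 : ℝ) else 0 := by
    apply summable_of_ne_finset_zero (s := {y})
    intro x hx
    rw [Finset.mem_singleton] at hx
    rw [if_neg hx]
  have s2 : ∀ p ∈ s, Summable fun x => κ p.1 p.2 ^ 2 * W p.1 p.2 x ^ 2 := by
    intro p hp
    rw [hmem] at hp
    exact (hWW p.1 p.2 hp.2.2).sum.mul_left _
  have s3 : Summable fun x => ∑ p ∈ s, κ p.1 p.2 ^ 2 * W p.1 p.2 x ^ 2 := summable_sum s2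
  refine ⟨w, wy, ?_, ?_, ?_, ?_, ?_⟩
  · intro x hx
    rcases woff x hx with h | ⟨p, hp, h⟩
    · exact Or.inl h
    · right
      rw [hmem] at hp
      exact ⟨p.1, hp.1, F2 _ _ hp.2.1 h⟩
  · intro x hx
    rcases woff x hx with h | ⟨p, hp, h⟩
    · exact ⟨i, hi, by rw [h, hy]⟩
    · have h1 := wpiece p hp x h
      rw [hmem] at hp
      refine (hWW p.1 p.2 hp.2.2).types x ?_
      intro h0
      rw [h0, mul_zero] at h1
      exact hx h1
  · have : (fun x => w x ^ 2) = fun x => (if x = y then (1 : ℝ) else 0) +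
        ∑ p ∈ s, κ p.1 p.2 ^ 2 * W p.1 p.2 x ^ 2 := funext wsq
    rw [this]
    exact s1.add s3
  · have e0 : ∑' x, w x ^ 2 = ∑' x, ((if x = y then (1 : ℝ) else 0) +
        ∑ p ∈ s, κ p.1 p.2 ^ 2 * W p.1 p.2 x ^ 2) := tsum_congr wsq
    rw [e0, s1.tsum_add s3, tsum_ite_eq, Summable.tsum_finsetSum s2]
    have e1 : ∑ p ∈ s, ∑' x, κ p.1 p.2 ^ 2 * W p.1 p.2 x ^ 2 ≤
        ∑ p ∈ s, κ p.1 p.2 ^ 2 * sN A X n p.2 p.1 := by
      refine Finset.sum_le_sum fun p hp => ?_
      rw [hmem] at hp
      rw [tsum_mul_left]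
      exact mul_le_mul_of_nonneg_left (hWW p.1 p.2 hp.2.2).en (sq_nonneg _)
    have e2 : ∑ p ∈ s, κ p.1 p.2 ^ 2 * sN A X n p.2 p.1 = ∑ j ∈ J, tN A X n i j := by
      rw [hs, Finset.sum_product]
      refine Finset.sum_congr rfl fun j _ => ?_
      have e3 : ∀ d ∈ X.erase i, κ j d ^ 2 * sN A X n d j =
          (A i j ^ 2 / D j ^ 2) * (A d j ^ 2 / sN A X n d j) := by
        intro d _
        have h1 := (sN_pos A X n d j).ne'
        have h2 := (hD j).ne'
        simp only [hκ]
        field_simp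
      show ∑ d ∈ X.erase i, κ j d ^ 2 * sN A X n d j = _
      rw [Finset.sum_congr rfl e3, ← Finset.mul_sum]
      show A i j ^ 2 / D j ^ 2 * D j = A i j ^ 2 / D j
      have h2 := (hD j).ne'
      field_simp
    linarith
  · -- equations
    intro j hj v hv j' hvt hdist
    have hvd : T.dist v (z j) < T.dist v y := hv
    by_cases hvz : v = z j
    · subst hvz
      have hjj : j' = j := by
        rw [hzt] at hvt
        exact (Sum.inr_injective hvt).symm
      subst hjj
      rw [← Finset.sum_erase_add _ _ hi]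
      have e1 : w (nb T Ξ (z j') (Sum.inl i)) = 1 := by
        have : nb T Ξ (z j') (Sum.inl i) = y := hy'i j'
        rw [this, wy]
      have e2 : ∀ d ∈ X.erase i, A d j' * w (nb T Ξ (z j') (Sum.inl d)) =
          (- A i j' / D j') * (A d j' ^ 2 / sN A X n d j') := by
        intro d hd
        rw [Finset.mem_erase] at hd
        have hps : ((j', d) : Fin g × Fin r) ∈ s := by
          rw [hmem]; exact ⟨hj, hd.1, hd.2⟩
        have e3 := wpiece (j', d) hps (y' j' d) (self_mem_Br hT (hzy' j' d))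
        simp only at e3
        rw [(hWW j' d hd.2).one, mul_one] at e3
        have e4 : nb T Ξ (z j') (Sum.inl d) = y' j' d := rfl
        rw [e4, e3]
        simp only [hκ]
        ring
      rw [Finset.sum_congr rfl e2, ← Finset.mul_sum, e1]
      show - A i j' / D j' * D j' + A i j' * 1 = 0
      have h2 := (hD j').ne'
      field_simp
      ring
    · obtain ⟨p, hp1, hp2⟩ := exists_closer hT v (v := z j) (fun h => hvz h.symm)
      obtain ⟨d, hd⟩ := red_of_adj_green hc hp1 (hzt j)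
      have hpd : p = y' j d := (nb_eq' hc hp1 hd).symm
      have hdi : d ≠ i := by
        rintro rfl
        rw [hy'i] at hpd
        rw [hpd] at hp2
        omega
      have hvp : v ∈ Br T (z j) p := by
        rw [mem_Br]; omega
      have hnbr : ∀ i', nb T Ξ v (Sum.inl i') ∈ Br T (z j) p := by
        intro i'
        have hadj : T.Adj v (nb T Ξ v (Sum.inl i')) := nb_adj hc (by rw [hvt]; simp)
        by_contra hcon
        obtain ⟨e1, _⟩ := leave_Br hT hp1 hadj hvp hcon
        rw [e1, hd] at hvt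
        exact absurd hvt (by simp)
      by_cases hdX : d ∈ X
      · have hps : ((j, d) : Fin g × Fin r) ∈ s := by
          rw [hmem]; exact ⟨hj, hdi, hdX⟩
        have e1 : ∀ i' ∈ X, A i' j' * w (nb T Ξ v (Sum.inl i')) =
            κ j d * (A i' j' * W j d (nb T Ξ v (Sum.inl i'))) := by
          intro i' _
          have := hnbr i'
          rw [hpd] at this
          rw [wpiece (j, d) hps _ this]
          ring
        rw [Finset.sum_congr rfl e1, ← Finset.mul_sum]
        -- equation of the piece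
        have hvy' : v ≠ y' j d := by
          intro h
          rw [h, hy't] at hvt
          exact absurd hvt (by simp)
        obtain ⟨p2, hq1, hq2⟩ := exists_closer hT v (v := y' j d) (fun h => hvy' h.symm)
        obtain ⟨j2, hj2⟩ := green_of_adj_red hc hq1 (hy't j d)
        have hp2' : nb T Ξ (y' j d) (Sum.inr j2) = p2 := nb_eq' hc hq1 hj2
        rw [hpd] at hp2
        have hjne : j2 ≠ j := by
          intro h
          rw [h, hy'z] at hp2'
          rw [← hp2'] at hq2
          omega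
        have hdvy : T.dist v y = T.dist v (z j) + 1 := by
          rcases dist_eq_or hT v (hyz j) with h | h <;> omega
        have e5 := (hWW j d hdX).eqn j2 (by rw [Finset.mem_erase]; exact ⟨hjne, Finset.mem_univ _⟩)
          v (by rw [hp2', mem_Br]; omega) j' hvt (by omega)
        rw [e5, mul_zero]
      · refine Finset.sum_eq_zero fun i' _ => ?_
        have hx := hnbr i'
        have : w (nb T Ξ v (Sum.inl i')) = 0 := by
          by_contra hne
          rcases woff _ hne with h | ⟨q, hq, h⟩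
          · rw [h, hpd] at hx
            exact left_not_mem_Br (F2 _ _ hdi hx)
          · rw [hmem] at hq
            rw [hpd] at hx
            by_cases hjq : j = q.1
            · rw [← hjq] at h
              have hdq : d ≠ q.2 := by
                rintro rfl
                exact hdX hq.2.2
              exact Set.disjoint_left.1 (Br_disj hT (hzy' j d) (hzy' j q.2)
                (hyinj j d q.2 hdq)) hx h
            · exact Set.disjoint_left.1 (Br_disj hT (hyz j) (hyz q.1) (hzinj j q.1 hjq))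
                (F2 j d hdi hx) (F2 q.1 q.2 hq.2.1 h)
        rw [this, mul_zero]

end X107.JT
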